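import Pool.Agent.Lib.MP_5ceaf9_gt.Tri.Defs

/-! The conormal space in a parametrisation. -/

set_option linter.unusedSectionVars false

noncomputable section

namespace Pool.Agent.Lib.MP_5ceaf9_gt.Tri

open Classical Set Metric Topology

variable {V : Type} [NormedAddCommGroup V] [InnerProductSpace ℝ V] [FiniteDimensional ℝ V]
  {n : ℕ} [NeZero n] {S : Set V} {b : V →L[ℝ] ℝ}

theorem convex_HB (u : E n) (r : ℝ) : Convex ℝ (HB u r) := by
  exact (convex_ball u r).inter (convex_halfSpace_ge (f := fun y : E n => y 0)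
    ⟨fun _ _ => rfl, fun _ _ => rfl⟩ 0)

theorem self_mem_HB {u : E n} {r : ℝ} (hr : 0 < r) (hu : 0 ≤ u 0) : u ∈ HB u r := by
  exact ⟨mem_ball_self hr, hu⟩

theorem ann_pt {u : E n} {r : ℝ} (hr : 0 < r) (hu : 0 ≤ u 0) :
    u + (r / 2) • (EuclideanSpace.single 0 1 : E n) ∈ ball u r ∩ {y | 0 < y 0} := by
  constructor
  · rw [mem_ball, dist_eq_norm, add_sub_cancel_left, norm_smul, PiLp.norm_single,
      norm_one, mul_one, Real.norm_eq_abs, abs_of_pos (half_pos hr)]
    exact half_lt_self hr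
  · have : (u + (r / 2) • (EuclideanSpace.single 0 1 : E n)) 0 = u 0 + r / 2 := by simp
    change 0 < (u + (r / 2) • (EuclideanSpace.single 0 1 : E n)) 0
    rw [this]
    linarith

theorem ann_sub (u : E n) (r : ℝ) : ball u r ∩ {y | 0 < y 0} ⊆ HB u r := by
  intro y hy
  have h : 0 < y 0 := hy.2
  exact ⟨hy.1, h.le⟩

/-- `uniqueDiffOn_convex`; the point `u + (r / 2) • EuclideanSpace.single 0 1` is interior -/
theorem uniqueDiffOn_HB {u : E n} {r : ℝ} (hr : 0 < r) (hu : 0 ≤ u 0) :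
    UniqueDiffOn ℝ (HB u r) := by
  exact uniqueDiffOn_convex (convex_HB u r) ⟨_, interior_maximal (ann_sub u r)
    (isOpen_ball.inter (isOpen_lt continuous_const (by fun_prop))) (ann_pt hr hu)⟩

section par

variable {x : V} {ψ : E n → V} {π : V →L[ℝ] E n} {u : E n} {r : ℝ} {O : Set V}

theorem Par.hasD (h : Par S b x ψ π u r O) {y : E n} (hy : y ∈ HB u r) :
    HasFDerivWithinAt ψ (fderivWithin ℝ ψ (HB u r) y) (HB u r) y := by
  exact (h.sm.differentiableOn (by norm_num) y hy).hasFDerivWithinAt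

/-- differentiate `π (ψ y) = y` within the half ball -/
theorem Par.pi_D (h : Par S b x ψ π u r O) {y : E n} (hy : y ∈ HB u r) (v : E n) :
    π (fderivWithin ℝ ψ (HB u r) y v) = v := by
  have h1 := π.hasFDerivAt.comp_hasFDerivWithinAt y (h.hasD hy)
  have h2 : HasFDerivWithinAt (π ∘ ψ) (ContinuousLinearMap.id ℝ (E n)) (HB u r) y :=
    (hasFDerivWithinAt_id y (HB u r)).congr h.inv (h.inv y hy)
  exact congrArg (fun L : E n →L[ℝ] E n => L v) ((uniqueDiffOn_HB h.pos h.u0 y hy).eq h1 h2)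

/-- Left to right: chain rule and unique derivative. Right to left: on `S ∩ O` we have
`ν s = (ν ∘ ψ) (π s)` and `π` maps `S ∩ O` into the half ball (`cov`, `inv`); chain rule, and
`S ∩ O` is a neighbourhood of `ψ y` within `S`. -/
theorem Par.ann_iff (h : Par S b x ψ π u r O) {y : E n} (hy : y ∈ HB u r) (hO : ψ y ∈ O)
    {ν : V →L[ℝ] ℝ} : ν ∈ Ann S (ψ y) ↔ ν.comp (fderivWithin ℝ ψ (HB u r) y) = 0 := by
  have h1 := ν.hasFDerivAt.comp_hasFDerivWithinAt y (h.hasD hy)
  constructor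
  · intro hν
    have h2 := HasFDerivWithinAt.comp y (mem_Ann.1 hν) (h.hasD hy) h.mem
    rw [ContinuousLinearMap.zero_comp] at h2
    exact (uniqueDiffOn_HB h.pos h.u0 y hy).eq h1 h2
  · intro hν
    rw [hν, ← h.inv y hy] at h1
    have hm : MapsTo π (S ∩ O) (HB u r) := by
      intro z hz
      obtain ⟨w, hw, rfl⟩ := h.cov hz
      rw [h.inv w hw]
      exact hw
    have h2 := HasFDerivWithinAt.comp (ψ y) h1 π.hasFDerivWithinAt hm
    rw [ContinuousLinearMap.zero_comp] at h2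
    have he : ∀ z ∈ S ∩ O, ν z = ((ν ∘ ψ) ∘ π) z := by
      intro z hz
      obtain ⟨w, hw, rfl⟩ := h.cov hz
      simp only [Function.comp_apply, h.inv w hw]
    exact (hasFDerivWithinAt_inter (h.opn.mem_nhds hO)).1
      (h2.congr he (he _ ⟨h.mem hy, hO⟩))

/-- With `e = single 0 1` and `u 0 = 0`: `b (ψ u) = 0` and `t ≤ b (ψ (u + t • e))` for small
`t ≥ 0`, so the derivative from the right of `t ↦ b (ψ (u + t • e))` at `0` is at least one. -/
theorem Par.one_le (h : Par S b x ψ π u r O) (hu : u 0 = 0) :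
    1 ≤ b (fderivWithin ℝ ψ (HB u r) u (EuclideanSpace.single 0 1)) := by
  have hy := self_mem_HB h.pos h.u0
  have h1 := (b.hasFDerivAt.comp_hasFDerivWithinAt u (h.hasD hy)).sub
    (EuclideanSpace.proj (0 : Fin n) : E n →L[ℝ] ℝ).hasFDerivWithinAt
  have h2 : IsMinOn (b ∘ ψ - ⇑(EuclideanSpace.proj (0 : Fin n) : E n →L[ℝ] ℝ)) (HB u r) u := by
    intro y hy'
    have h3 := h.ge y hy'
    have h4 := h.bd u hy hu
    change b (ψ u) - u 0 ≤ b (ψ y) - y 0
    linarith
  have h3 := h2.localize.hasFDerivWithinAt_nonneg h1 (mem_posTangentConeAt_of_segment_subset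
    ((convex_HB u r).segment_subset hy (ann_sub u r (ann_pt h.pos h.u0))))
  rw [map_smul, smul_eq_mul, mul_nonneg_iff_of_pos_left (half_pos h.pos)] at h3
  simpa using h3

/-- from `ge`, `bd`, `ctr`, `u0` -/
theorem Par.b_zero (h : Par S b x ψ π u r O) : b x = 0 ↔ u 0 = 0 := by
  have hy := self_mem_HB h.pos h.u0
  rw [← h.ctr]
  exact ⟨fun h0 => le_antisymm (h0 ▸ h.ge u hy) h.u0, h.bd u hy⟩

end par

theorem Nice.b_nonneg (h : Nice n S b) {x : V} (hx : x ∈ S) : 0 ≤ b x := by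
  obtain ⟨ψ, π, u, r, O, hp⟩ := h.par x hx
  rw [← hp.ctr]
  exact hp.u0.trans (hp.ge u (self_mem_HB hp.pos hp.u0))

/-- `Par.ann_iff`, `Par.one_le` -/
theorem Nice.b_ind (h : Nice n S b) {x : V} (hx : x ∈ S) (h0 : b x = 0) :
    Ind S x {((b, 0) : Af V)} := by
  obtain ⟨ψ, π, u, r, O, hp⟩ := h.par x hx
  intro μ hμ f hf
  rw [Finset.mem_singleton.1 hf]
  rw [Finset.sum_singleton, ← hp.ctr,
    hp.ann_iff (self_mem_HB hp.pos hp.u0) (hp.ctr.symm ▸ hp.xO)] at hμ
  have h1 := hp.one_le (hp.b_zero.1 h0)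
  have h2 : μ (b, 0) * b (fderivWithin ℝ ψ (HB u r) u (EuclideanSpace.single 0 1)) = 0 :=
    congrArg (fun L : E n →L[ℝ] ℝ => L (EuclideanSpace.single 0 1)) hμ
  exact (mul_eq_zero.1 h2).resolve_right (by linarith)

/-- Independent linear forms are among the coordinates of a linear automorphism. Extend to a basis
of the dual space (`Module.Basis.extend` or `exists_linearIndependent_extension`), index it by
`Fin n` (the dual has dimension `n`); the map with these coordinates is injective, so bijective. -/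
theorem ex_coords {α : Type} (T : Finset α) (ℓ : α → (E n →L[ℝ] ℝ))
    (h : ∀ μ : α → ℝ, ∑ f ∈ T, μ f • ℓ f = 0 → ∀ f ∈ T, μ f = 0) :
    ∃ (ι : α → Fin n) (A : E n ≃L[ℝ] E n), InjOn ι T ∧ ∀ f ∈ T, ∀ v, A v (ι f) = ℓ f v := by
  have hli : LinearIndependent ℝ (fun f : T => ℓ f) := by
    rw [Fintype.linearIndependent_iff]
    intro g hg f
    have h1 := h (fun a => if ha : a ∈ T then g ⟨a, ha⟩ else 0) (by
      rw [← Finset.sum_coe_sort, ← hg]
      exact Finset.sum_congr rfl fun a _ => by rw [dif_pos a.2]) f f.2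
    simpa using h1
  let B := Module.Basis.extend hli.linearIndepOn_id
  have hrk : Module.finrank ℝ (E n →L[ℝ] ℝ) = Module.finrank ℝ (Fin n → ℝ) := by
    rw [← (LinearMap.toContinuousLinearMap : (E n →ₗ[ℝ] ℝ) ≃ₗ[ℝ] (E n →L[ℝ] ℝ)).finrank_eq]
    simp
  let e := B.indexEquiv (Module.finBasisOfFinrankEq ℝ (E n →L[ℝ] ℝ) (n := n) (by simpa using hrk))
  let A : E n →ₗ[ℝ] E n :=
    { toFun := fun v => WithLp.toLp 2 fun i => B (e.symm i) v
      map_add' := fun v w => by ext i; simp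
      map_smul' := fun c v => by ext i; simp }
  have hA : ∀ v j, A v (e j) = B j v := fun v j => by
    change B (e.symm (e j)) v = B j v
    rw [e.symm_apply_apply]
  have hinj : Function.Injective A := by
    rw [injective_iff_map_eq_zero]
    intro v hv
    have h1 : (ContinuousLinearMap.apply ℝ ℝ v : (E n →L[ℝ] ℝ) →L[ℝ] ℝ).toLinearMap = 0 :=
      B.ext fun j => by
        have h2 := hA v j
        rw [hv] at h2
        exact h2.symm
    ext i
    exact LinearMap.congr_fun h1 (EuclideanSpace.proj i)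
  have hmem : ∀ f ∈ T, ℓ f ∈ hli.linearIndepOn_id.extend (subset_univ _) := fun f hf =>
    hli.linearIndepOn_id.subset_extend _ ⟨⟨f, hf⟩, rfl⟩
  refine ⟨fun f => if hf : f ∈ T then e ⟨ℓ f, hmem f hf⟩ else 0,
    (LinearEquiv.ofInjectiveEndo A hinj).toContinuousLinearEquiv, ?_, ?_⟩
  · intro f hf g hg hfg
    have hf' : f ∈ T := hf
    have hg' : g ∈ T := hg
    simp only [dif_pos hf', dif_pos hg'] at hfg
    have h1 : ℓ f = ℓ g := congrArg Subtype.val (e.injective hfg)
    exact congrArg Subtype.val (hli.injective (a₁ := ⟨f, hf'⟩) (a₂ := ⟨g, hg'⟩) h1)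
  · intro f hf v
    simp only [dif_pos hf]
    change A v (e ⟨ℓ f, hmem f hf⟩) = ℓ f v
    rw [hA, Module.Basis.extend_apply_self]

/-- `Par.ann_iff` at the centre, `ex_coords`, and an injection into `Fin n` -/
theorem Nice.card_le (h : Nice n S b) {x : V} (hx : x ∈ S) {T : Finset (Af V)} (hI : Ind S x T) :
    T.card ≤ n := by
  obtain ⟨ψ, π, u, r, O, hp⟩ := h.par x hx
  obtain ⟨ι, -, hι, -⟩ := ex_coords T (fun f : Af V => f.1.comp (fderivWithin ℝ ψ (HB u r) u))
    (fun μ hμ => hI μ (by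
      rw [← hp.ctr, hp.ann_iff (self_mem_HB hp.pos hp.u0) (hp.ctr.symm ▸ hp.xO), ← hμ]
      ext v
      simp))
  simpa using Finset.card_le_card_of_injOn ι (t := Finset.univ) (fun _ _ => by simp) hι

end Pool.Agent.Lib.MP_5ceaf9_gt.Tri
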