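import Pool.Agent.Lib.MP_5ceaf9_gt.Tri.Str

/-! The set of tangent functions is small. -/

set_option linter.unusedSectionVars false

noncomputable section

namespace Pool.Agent.Lib.MP_5ceaf9_gt.Tri

open Classical Set Metric Topology

variable {V : Type} [NormedAddCommGroup V] [InnerProductSpace ℝ V] [FiniteDimensional ℝ V]
  {n : ℕ} [NeZero n] {S : Set V} {b : V →L[ℝ] ℝ}

/-- the coordinates in `J` are put to zero -/
def badK (J : Finset (Fin n)) : E n →L[ℝ] E n :=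
  LinearMap.toContinuousLinearMap
    { toFun := fun z => WithLp.toLp 2 fun i => if i ∈ J then 0 else z i
      map_add' := fun z z' => by
        ext i
        by_cases h : i ∈ J <;> simp [h]
      map_smul' := fun t z => by
        ext i
        by_cases h : i ∈ J <;> simp [h] }

theorem badK_apply (J : Finset (Fin n)) (z : E n) (i : Fin n) :
    badK J z i = if i ∈ J then 0 else z i := rfl

theorem bad_finrank_dual (W : Type) [NormedAddCommGroup W] [NormedSpace ℝ W]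
    [FiniteDimensional ℝ W] : Module.finrank ℝ (W →L[ℝ] ℝ) = Module.finrank ℝ W := by
  rw [← (LinearMap.toContinuousLinearMap : (W →ₗ[ℝ] ℝ) ≃ₗ[ℝ] (W →L[ℝ] ℝ)).finrank_eq]
  exact Subspace.dual_finrank_eq

theorem bad_finrank {π : V →L[ℝ] E n} (h : Function.Surjective π) :
    Module.finrank ℝ (E n × ((π : V →ₗ[ℝ] E n).ker →L[ℝ] ℝ)) = Module.finrank ℝ V := by
  rw [Module.finrank_prod, bad_finrank_dual, ← LinearMap.finrank_range_add_finrank_ker
    (π : V →ₗ[ℝ] E n), LinearMap.range_eq_top.2 h, finrank_top]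

theorem bad_dim_prod (W : Type) [NormedAddCommGroup W] [NormedSpace ℝ W]
    [FiniteDimensional ℝ W] : dimH (univ : Set (E n × W)) = Module.finrank ℝ (E n × W) :=
  Real.dimH_univ_eq_finrank _

/-- the linear part of the parametrisation of the tangent functions -/
def badG (T : Finset (Af V)) (ι : Af V → Fin n) (D : E n → E n →L[ℝ] V) (π : V →L[ℝ] E n)
    (K : Submodule ℝ V) (q : E n × E n × (K →L[ℝ] ℝ)) : V →L[ℝ] ℝ :=
  ∑ f ∈ T, q.2.1 (ι f) • f.1 +
    (q.2.2.comp K.orthogonalProjectionOnto).comp (ContinuousLinearMap.id ℝ V - (D q.1).comp π)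

theorem badG_smooth (T : Finset (Af V)) (ι : Af V → Fin n) {D : E n → E n →L[ℝ] V}
    (π : V →L[ℝ] E n) (K : Submodule ℝ V) {A : Set (E n)} (hD : ContDiffOn ℝ 1 D A) :
    ContDiffOn ℝ 1 (badG T ι D π K) (A ×ˢ univ) := by
  have h1 : ContDiffOn ℝ 1 (fun q : E n × E n × (K →L[ℝ] ℝ) => D q.1) (A ×ˢ univ) :=
    hD.comp contDiffOn_fst fun q hq => hq.1
  refine ContDiffOn.add (ContDiffOn.sum fun f _ => ?_) (ContDiffOn.clm_comp ?_ ?_)
  · have h2 : ContDiff ℝ 1 fun q : E n × E n × (K →L[ℝ] ℝ) => q.2.1 (ι f) :=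
      (EuclideanSpace.proj (𝕜 := ℝ) (ι f)).contDiff.comp (contDiff_fst.comp contDiff_snd)
    exact h2.contDiffOn.smul contDiffOn_const
  · exact ((contDiff_snd.comp contDiff_snd).clm_comp contDiff_const).contDiffOn
  · exact contDiffOn_const.sub (h1.clm_comp contDiffOn_const)

/-- Let `D y = fderivWithin ℝ ψ (HB u r) y`, `K = ker π` (dimension `finrank V - n`, as `π` is onto
by `Par.pi_D`), `ρ : V →L[ℝ] K` a projection (`Submodule.orthogonalProjectionOnto`). Put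
`g1 (y, z, w) = ∑ f ∈ T, z (ι f) • f.1 + (w.comp ρ).comp (1 - (D y).comp π)` and
`G (y, z, w) = (g1, - g1 (ψ y))`; `G` is `C¹` on the convex set `HB u r ×ˢ univ`. Let `k z` be `z`
with the coordinates in `ι '' T` put to zero, `D' = {(z, w) | k z ∈ Dom}` and
`Θ (z, w) = (π (Ψ (k z)), z, w)`, Lipschitz on `D'` by `Str.lip`, with values in
`HB u r ×ˢ univ`. The bad set lies in `G '' (Θ '' D')`: for `g` bad at `s = Ψ y` (the coordinates
of `y` in `ι '' T` vanish by `val`) write `g.1 = ∑ μ f • f.1 + ν` with `ν ∈ Ann S s`, let `z` be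
`y` with `z (ι f) = μ f`, and `w` the restriction of `ν` to `K`; `ν.comp (D (π s)) = 0` by
`Par.ann_iff`. Then `ContDiffOn.dimH_image_le`, `LipschitzOnWith.dimH_image_le`,
`Real.dimH_univ_eq_finrank` for `E n × (K →L[ℝ] ℝ)`. -/
theorem bad_loc {x : V} {ψ : E n → V} {π : V →L[ℝ] E n} {u : E n} {r : ℝ} {O : Set V}
    (hp : Par S b x ψ π u r O) {T : Finset (Af V)} {ι : Af V → Fin n} {r' : ℝ} {Ψ : E n → V}
    {L : E n →L[ℝ] V} {Λ : V →L[ℝ] E n} {c : ℝ} {O' : Set V} (hs : Str S b x T ι r' Ψ L Λ c O')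
    (hO : MapsTo Ψ (Dom b T ι r') O) {Z : Set V} (hZ : Z ⊆ S ∩ O')
    (h0 : ∀ s ∈ Z, ∀ f ∈ T, ev f s = 0) : dimH (Bad S T Z) ≤ Module.finrank ℝ V := by
  have hu : u ∈ HB u r := self_mem_HB hp.pos hp.u0
  have hsur : Function.Surjective π := fun v => ⟨_, hp.pi_D hu v⟩
  set K : Submodule ℝ V := (π : V →ₗ[ℝ] E n).ker with hK
  set D : E n → E n →L[ℝ] V := fderivWithin ℝ ψ (HB u r) with hD
  have hD1 : ContDiffOn ℝ 1 D (HB u r) :=
    hp.sm.fderivWithin (uniqueDiffOn_HB hp.pos hp.u0) (by norm_num)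
  have hg := badG_smooth T ι π K hD1
  let G : E n × E n × (K →L[ℝ] ℝ) → Af V :=
    fun q => (badG T ι D π K q, - badG T ι D π K q (ψ q.1))
  have hG : ContDiffOn ℝ 1 G (HB u r ×ˢ univ) := by
    refine hg.prodMk (ContDiffOn.neg (hg.clm_apply ?_))
    exact (hp.sm.of_le (by norm_num)).comp contDiffOn_fst fun q hq => hq.1
  let k : E n →L[ℝ] E n := badK (T.image ι)
  let D' : Set (E n × (K →L[ℝ] ℝ)) := {p | k p.1 ∈ Dom b T ι r'}
  let Θ : E n × (K →L[ℝ] ℝ) → E n × E n × (K →L[ℝ] ℝ) := fun p => (π (Ψ (k p.1)), p)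
  have hΨ : LipschitzOnWith (‖L‖ + c).toNNReal Ψ (Dom b T ι r') := by
    refine LipschitzOnWith.of_dist_le_mul fun y hy y' hy' => ?_
    rw [dist_eq_norm, dist_eq_norm]
    exact (hs.lip hy hy').trans
      (mul_le_mul_of_nonneg_right (Real.le_coe_toNNReal _) (norm_nonneg _))
  have hk : LipschitzWith (‖k‖₊ * 1) fun p : E n × (K →L[ℝ] ℝ) => k p.1 :=
    k.lipschitz.comp LipschitzWith.prod_fst
  have hΘ := (π.lipschitz.comp_lipschitzOnWith
    (hΨ.comp (s := D') hk.lipschitzOnWith fun p hp => hp)).prodMk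
    (LipschitzWith.id.lipschitzOnWith (s := D'))
  have hH : ∀ y ∈ Dom b T ι r', π (Ψ y) ∈ HB u r ∧ ψ (π (Ψ y)) = Ψ y := by
    intro y hy
    obtain ⟨y0, h1, h2⟩ := hp.cov ⟨hs.mem hy, hO hy⟩
    rw [← h2, hp.inv y0 h1]
    exact ⟨h1, rfl⟩
  have hsub : Θ '' D' ⊆ HB u r ×ˢ univ := by
    rintro _ ⟨p, h1, rfl⟩
    exact ⟨(hH _ h1).1, trivial⟩
  have hcov : Bad S T Z ⊆ G '' (Θ '' D') := by
    rintro g ⟨s, h1, h2, h3⟩
    obtain ⟨y, hy, rfl⟩ := hs.cov (hZ h1)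
    obtain ⟨a, ha, ν, hν, h4⟩ := Submodule.mem_sup.1 h3
    obtain ⟨μ, rfl⟩ := (Submodule.mem_span_image_finset_iff_exists_fun' ℝ).1 ha
    let z : E n := WithLp.toLp 2 fun i => if h : ∃ f ∈ T, ι f = i then μ h.choose else y i
    have hz : ∀ f ∈ T, z (ι f) = μ f := by
      intro f hf
      have h : ∃ f' ∈ T, ι f' = ι f := ⟨f, hf, rfl⟩
      have e : z (ι f) = μ h.choose := dif_pos h
      rw [e, hs.inj h.choose_spec.1 hf h.choose_spec.2]
    have hkz : k z = y := by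
      ext i
      rw [badK_apply]
      split_ifs with h
      · obtain ⟨f, hf, rfl⟩ := Finset.mem_image.1 h
        rw [← hs.val f hf y hy, h0 _ h1 f hf]
      · exact dif_neg fun h' => h (Finset.mem_image.2 h')
    obtain ⟨h5, h6⟩ := hH y hy
    have h7 : ν.comp (D (π (Ψ y))) = 0 :=
      (hp.ann_iff h5 (by rw [h6]; exact hO hy)).1 (by rw [h6]; exact hν)
    have h8 : badG T ι D π K (π (Ψ y), z, ν.comp K.subtypeL) = g.1 := by
      rw [← h4, badG]
      refine congrArg₂ (· + ·) (Finset.sum_congr rfl fun f hf => by rw [hz f hf]) ?_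
      ext v
      have h9 : v - D (π (Ψ y)) (π v) ∈ K := by
        have : π (v - D (π (Ψ y)) (π v)) = 0 := by rw [map_sub, hp.pi_D h5, sub_self]
        exact this
      have h10 : K.orthogonalProjectionOnto (v - D (π (Ψ y)) (π v)) = ⟨_, h9⟩ :=
        K.orthogonalProjectionOnto_mem_subspace_eq_self ⟨_, h9⟩
      have h11 : ν (D (π (Ψ y)) (π v)) = 0 := by
        have := congrArg (fun A : E n →L[ℝ] ℝ => A (π v)) h7
        exact this
      change ν (K.orthogonalProjectionOnto (v - D (π (Ψ y)) (π v)) : V) = ν v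
      rw [h10]
      change ν (v - D (π (Ψ y)) (π v)) = ν v
      rw [map_sub, h11, sub_zero]
    refine ⟨_, ⟨(z, ν.comp K.subtypeL), ?_, rfl⟩, ?_⟩
    · change k z ∈ Dom b T ι r'
      rw [hkz]
      exact hy
    · change (badG T ι D π K (π (Ψ (k z)), z, ν.comp K.subtypeL),
        - badG T ι D π K (π (Ψ (k z)), z, ν.comp K.subtypeL) (ψ (π (Ψ (k z))))) = g
      rw [hkz, h8, h6]
      refine Prod.ext rfl ?_
      have : g.1 (Ψ y) + g.2 = 0 := h2
      change - g.1 (Ψ y) = g.2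
      linarith
  calc dimH (Bad S T Z) ≤ dimH (G '' (Θ '' D')) := dimH_mono hcov
    _ ≤ dimH (Θ '' D') := hG.dimH_image_le ((convex_HB u r).prod convex_univ) hsub
    _ ≤ dimH D' := hΘ.dimH_image_le
    _ ≤ dimH (univ : Set (E n × (K →L[ℝ] ℝ))) := dimH_mono (subset_univ _)
    _ = Module.finrank ℝ (E n × (K →L[ℝ] ℝ)) := bad_dim_prod (K →L[ℝ] ℝ)
    _ = Module.finrank ℝ V := by rw [bad_finrank hsur]

/-- countable cover by the sets of `bad_loc` (`TopologicalSpace.countable_cover_nhdsWithin`,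
`dimH_bUnion`) -/
theorem Nice.bad_dim (h : Nice n S b) {T : Finset (Af V)} {Z : Set V} (hZ : Z ⊆ S)
    (h0 : ∀ s ∈ Z, ∀ f ∈ T, ev f s = 0) (hI : ∀ s ∈ Z, Ind S s T)
    (hb : ∀ s ∈ Z, b s = 0 → (b, 0) ∈ T) : dimH (Bad S T Z) ≤ Module.finrank ℝ V := by
  have H : ∀ s ∈ Z, ∃ U ∈ 𝓝[Z] s, dimH (Bad S T (Z ∩ U)) ≤ Module.finrank ℝ V := by
    intro s hs
    obtain ⟨ψ, π, u, r, O, hp⟩ := h.par s (hZ hs)
    obtain ⟨ι, r', Ψ, L, Λ, c, O', h1, h2⟩ :=
      h.str (hZ hs) (h0 s hs) (hI s hs) (hb s hs) (hp.opn.mem_nhds hp.xO)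
    exact ⟨O', mem_nhdsWithin_of_mem_nhds (h1.opn.mem_nhds h1.xO),
      bad_loc hp h1 h2 (fun y hy => ⟨hZ hy.1, hy.2⟩) fun y hy => h0 y hy.1⟩
  choose! U h1 h2 using H
  obtain ⟨C, h3, h4, h5⟩ := TopologicalSpace.countable_cover_nhdsWithin h1
  have h6 : Bad S T Z ⊆ ⋃ s ∈ C, Bad S T (Z ∩ U s) := by
    rintro g ⟨s, h6, h7⟩
    obtain ⟨t, h8, h9⟩ := mem_iUnion₂.1 (h5 h6)
    exact mem_iUnion₂.2 ⟨t, h8, s, ⟨h6, h9⟩, h7⟩
  refine (dimH_mono h6).trans ?_
  rw [dimH_bUnion h4]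
  exact iSup₂_le fun s hs => h2 s (h3 hs)

/-- `finrank (Af V) = finrank V + 1`, `Real.dense_compl_of_dimH_lt_finrank` or
`dense_compl_of_dimH_lt_finrank` -/
theorem dense_good {B : Set (Af V)} (h : dimH B ≤ Module.finrank ℝ V) : Dense Bᶜ := by
  refine dense_compl_of_dimH_lt_finrank (h.trans_lt ?_)
  rw [Module.finrank_prod, bad_finrank_dual, Module.finrank_self]
  exact_mod_cast Nat.lt_succ_self _

/-- translation is an isometry -/
theorem dimH_shift (B : Set (Af V)) (a : Af V) : dimH {g | g - a ∈ B} = dimH B := by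
  have e : {g | g - a ∈ B} = (IsometryEquiv.subRight a) ⁻¹' B := rfl
  rw [e, IsometryEquiv.dimH_preimage]

end Pool.Agent.Lib.MP_5ceaf9_gt.Tri
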