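import Pool.Agent.Lib.MP_5ceaf9_gt.Tri.Defs

/-! Coning off a cell. -/

set_option linter.unusedSectionVars false

noncomputable section

namespace Pool.Agent.Lib.MP_5ceaf9_gt.Tri

open Classical Set Metric Topology

variable {V : Type} [NormedAddCommGroup V] [InnerProductSpace ℝ V] [FiniteDimensional ℝ V]
  {n : ℕ} [NeZero n] {S : Set V} {b : V →L[ℝ] ℝ}

theorem cone_sum {w : ℕ → ℝ} {σ τ : Finset ℕ} (hσ : ∀ v, v ∉ σ → w v = 0)
    (hτ : ∀ v, v ∉ τ → w v = 0) : ∑ v ∈ σ, w v = ∑ v ∈ τ, w v :=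
  (Finset.sum_subset Finset.subset_union_left fun v _ h => hσ v h).trans
    (Finset.sum_subset Finset.subset_union_right fun v _ h => hτ v h).symm

theorem cone_supp {K L : SC} {w w' : ℕ → ℝ} (hw : w ∈ K.space) (hw' : w' ∈ L.space)
    (h : ∀ v, w v = 0 → w' v = 0) : w' ∈ K.space := by
  obtain ⟨-, σ, h1, h2, -⟩ := hw
  obtain ⟨h0, τ, -, h3, h4⟩ := hw'
  exact ⟨h0, σ, h1, fun v hv => h v (h2 v hv), (cone_sum (fun v hv => h v (h2 v hv)) h3).trans h4⟩

theorem cone_mono {K L : SC} (h : K.faces ⊆ L.faces) : K.space ⊆ L.space :=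
  fun _ ⟨h0, σ, h1, h2⟩ => ⟨h0, σ, h h1, h2⟩

/-- `K` consists of the faces `σ` of `L` such that `t` maps all points with support in `σ` into
`Z`; for `w ∈ L.space` the support of `w` is a face of `L`. -/
theorem sat_sub {L : SC} {t : (ℕ → ℝ) → V} {Z : Set V} (h : Sat L t Z) :
    ∃ K : SC, K.faces ⊆ L.faces ∧ ∀ w ∈ L.space, (t w ∈ Z ↔ w ∈ K.space) := by
  refine ⟨⟨L.faces.filter fun σ => ∀ w ∈ L.space, (∀ u, u ∉ σ → w u = 0) → t w ∈ Z,
    fun σ hσ => L.nonempty σ (Finset.mem_filter.1 hσ).1, fun σ hσ ρ hρ hne => ?_⟩,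
    Finset.filter_subset _ _, fun w hw => ⟨fun hZ => ?_, ?_⟩⟩
  · obtain ⟨h1, h2⟩ := Finset.mem_filter.1 hσ
    exact Finset.mem_filter.2 ⟨L.down σ h1 ρ hρ hne,
      fun w hw h3 => h2 w hw fun u hu => h3 u fun h4 => hu (hρ h4)⟩
  · obtain ⟨h0, σ, h1, h2, h3⟩ := id hw
    have h4 : ∑ v ∈ σ.filter (fun u => w u ≠ 0), w v = 1 := (Finset.sum_filter_ne_zero σ).trans h3
    refine ⟨h0, σ.filter fun u => w u ≠ 0, Finset.mem_filter.2 ⟨L.down σ h1 _
      (Finset.filter_subset _ _) (Finset.nonempty_of_sum_ne_zero (h4.trans_ne one_ne_zero)),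
      fun w' hw' h5 => h w hw w' hw' (fun u hu => h5 u fun h6 =>
        (Finset.mem_filter.1 h6).2 hu) hZ⟩, fun u hu => ?_, h4⟩
    by_contra h5
    exact hu (Finset.mem_filter.2 ⟨by_contra fun h6 => h5 (h2 u h6), h5⟩)
  · rintro ⟨-, σ, h1, h2, -⟩
    exact (Finset.mem_filter.1 h1).2 w hw h2

/-- the cone on `K` with vertex `v` -/
def coneK (K : SC) (v : ℕ) : SC where
  faces := K.faces ∪ insert {v} (K.faces.image (insert v))
  nonempty := by
    intro σ hσ
    simp only [Finset.mem_union, Finset.mem_insert, Finset.mem_image] at hσ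
    rcases hσ with h | rfl | ⟨τ, -, rfl⟩
    · exact K.nonempty σ h
    · exact Finset.singleton_nonempty v
    · exact Finset.insert_nonempty v τ
  down := by
    intro σ hσ ρ hρ hne
    simp only [Finset.mem_union, Finset.mem_insert, Finset.mem_image] at hσ ⊢
    rcases hσ with h | rfl | ⟨τ, h, rfl⟩
    · exact Or.inl (K.down σ h ρ hρ hne)
    · exact Or.inr (Or.inl (hne.subset_singleton_iff.1 hρ))
    · by_cases hv : v ∈ ρ
      · rcases (ρ.erase v).eq_empty_or_nonempty with h1 | h1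
        · refine Or.inr (Or.inl ?_)
          rw [← Finset.insert_erase hv, h1]
          rfl
        · exact Or.inr (Or.inr ⟨ρ.erase v, K.down τ h _ (Finset.subset_insert_iff.1 hρ) h1,
            Finset.insert_erase hv⟩)
      · exact Or.inl (K.down τ h ρ ((Finset.subset_insert_iff_of_notMem hv).1 hρ) hne)

def unionK (K L : SC) : SC where
  faces := K.faces ∪ L.faces
  nonempty := by
    intro σ hσ
    exact (Finset.mem_union.1 hσ).elim (K.nonempty σ) (L.nonempty σ)
  down := by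
    intro σ hσ ρ hρ hne
    exact Finset.mem_union.2 ((Finset.mem_union.1 hσ).imp (fun h => K.down σ h ρ hρ hne)
      fun h => L.down σ h ρ hρ hne)

theorem space_unionK (K L : SC) : (unionK K L).space = K.space ∪ L.space := by
  refine Subset.antisymm ?_ (union_subset (cone_mono Finset.subset_union_left)
    (cone_mono Finset.subset_union_right))
  rintro w ⟨h0, σ, h1, h2⟩
  exact (Finset.mem_union.1 h1).imp (fun h => ⟨h0, σ, h, h2⟩) fun h => ⟨h0, σ, h, h2⟩

/-- the radial projection from the vertex `v` -/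
def rad (v : ℕ) (w : ℕ → ℝ) : ℕ → ℝ := fun u => if u = v then 0 else (1 - w v)⁻¹ * w u

theorem cone_rad_zero {v : ℕ} {w : ℕ → ℝ} (h : w v = 0) : rad v w = w := by
  funext u
  by_cases hu : u = v
  · rw [rad, if_pos hu, hu, h]
  · rw [rad, if_neg hu, h, sub_zero, inv_one, one_mul]

theorem cone_rad_mul {v u : ℕ} {w : ℕ → ℝ} (h : w v < 1) (hu : u ≠ v) :
    w u = (1 - w v) * rad v w u := by
  rw [rad, if_neg hu, mul_inv_cancel_left₀ (sub_pos.2 h).ne']

theorem mem_coneK {K : SC} {v : ℕ} (hv : ∀ σ ∈ K.faces, v ∉ σ) {w : ℕ → ℝ} :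
    w ∈ (coneK K v).space ↔ w = Pi.single v 1 ∨ (0 ≤ w v ∧ w v < 1 ∧ rad v w ∈ K.space) := by
  have hs : ∀ w : ℕ → ℝ, w v = 1 → (∀ u, u ≠ v → w u = 0) → w = Pi.single v 1 := fun w h1 h2 => by
    funext u
    by_cases hu : u = v
    · rw [hu, h1, Pi.single_eq_same]
    · rw [h2 u hu, Pi.single_eq_of_ne hu]
  constructor
  · rintro ⟨h0, σ, h1, h2, h3⟩
    simp only [coneK, Finset.mem_union, Finset.mem_insert, Finset.mem_image] at h1
    rcases h1 with h | rfl | ⟨τ, h, rfl⟩
    · have h4 := h2 v (hv σ h)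
      refine Or.inr ⟨h0 v, h4.trans_lt one_pos, ?_⟩
      rw [cone_rad_zero h4]
      exact ⟨h0, σ, h, h2, h3⟩
    · exact Or.inl (hs w ((Finset.sum_singleton _ _).symm.trans h3)
        fun u hu => h2 u (Finset.notMem_singleton.2 hu))
    · rw [Finset.sum_insert (hv τ h)] at h3
      have h4 : 0 ≤ ∑ u ∈ τ, w u := Finset.sum_nonneg fun u _ => h0 u
      rcases h4.eq_or_lt with h5 | h5
      · refine Or.inl (hs w (by linarith) fun u hu => ?_)
        by_cases h6 : u ∈ τ
        · exact (Finset.sum_eq_zero_iff_of_nonneg fun u _ => h0 u).1 h5.symm u h6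
        · exact h2 u fun h7 => (Finset.mem_insert.1 h7).elim hu h6
      · have h6 : w v < 1 := by linarith
        refine Or.inr ⟨h0 v, h6, fun u => ?_, τ, h, fun u hu => ?_, ?_⟩
        · unfold rad
          split_ifs
          · exact le_rfl
          · exact mul_nonneg (inv_nonneg.2 (sub_pos.2 h6).le) (h0 u)
        · unfold rad
          split_ifs with h7
          · rfl
          · rw [h2 u fun h8 => (Finset.mem_insert.1 h8).elim h7 hu, mul_zero]
        · rw [Finset.sum_congr rfl (f := rad v w) (g := fun u => (1 - w v)⁻¹ * w u) fun u hu =>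
            if_neg fun h7 : u = v => hv τ h (h7 ▸ hu), ← Finset.mul_sum,
            eq_sub_of_add_eq' h3, inv_mul_cancel₀ (sub_pos.2 h6).ne']
  · rintro (rfl | ⟨h1, h2, h0, τ, h, h3, h4⟩)
    · refine ⟨fun u => ?_, {v}, Finset.mem_union_right _ (Finset.mem_insert_self _ _),
        fun u hu => Pi.single_eq_of_ne (Finset.notMem_singleton.1 hu) _, by simp⟩
      by_cases hu : u = v
      · rw [hu, Pi.single_eq_same]
        exact zero_le_one
      · rw [Pi.single_eq_of_ne hu]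
    · refine ⟨fun u => ?_, insert v τ, Finset.mem_union_right _ (Finset.mem_insert_of_mem
        (Finset.mem_image_of_mem _ h)), fun u hu => ?_, ?_⟩
      · by_cases hu : u = v
        · rwa [hu]
        · rw [cone_rad_mul h2 hu]
          exact mul_nonneg (sub_pos.2 h2).le (h0 u)
      · rw [Finset.mem_insert, not_or] at hu
        rw [cone_rad_mul h2 hu.1, h3 u hu.2, mul_zero]
      · rw [Finset.sum_insert (hv τ h), Finset.sum_congr rfl fun u hu =>
          cone_rad_mul h2 fun h7 : u = v => hv τ h (h7 ▸ hu), ← Finset.mul_sum, h4]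
        ring

theorem cone_rad_cont (v : ℕ) : ContinuousOn (rad v) {w | w v < 1} := by
  refine continuousOn_pi.2 fun u => ?_
  by_cases hu : u = v
  · simp only [rad, if_pos hu]
    exact continuousOn_const
  · simp only [rad, if_neg hu]
    exact ((continuous_const.sub (continuous_apply v)).continuousOn.inv₀
      fun w hw => (sub_pos.2 hw).ne').mul (continuous_apply u).continuousOn

/-- Take `K` from `sat_sub`, a vertex `v` in no face of `L`, `L' = unionK L (coneK K v)` and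
`t' w = if w v = 1 then p else if w v = 0 then t w else H (t (rad v w)) (1 - w v)`. On the cone
minus its vertex `t' w = H (t (rad v w)) (1 - w v)` (`one`); continuity at the vertex by `near`;
`ContinuousOn.union_of_isClosed` or `ContinuousOn.union_continuousAt` with `isCompact_space`. For
`0 < w v` the point `t' w` lies in `C` and not in `B`, so not in `Y`. -/
theorem tr_cone {L : SC} {t : (ℕ → ℝ) → V} {Y C B : Set V} {p : V} {H : V → ℝ → V} {M : ℝ}
    (ht : Tr L t Y) (hc : Cone C B p H M) (hB : C ∩ Y = B) (hs : Sat L t B) :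
    ∃ (L' : SC) (t' : (ℕ → ℝ) → V), Tr L' t' (Y ∪ C) ∧ Sat L' t' C ∧
      ∀ Z ⊆ Y, Sat L t Z → Sat L' t' Z := by
  obtain ⟨K, hKL, hK⟩ := sat_sub hs
  have hsub : K.space ⊆ L.space := cone_mono hKL
  obtain ⟨v, hv⟩ := Infinite.exists_notMem_finset (L.faces.biUnion id)
  have hvL : ∀ σ ∈ L.faces, v ∉ σ := fun σ h1 h2 => hv (Finset.mem_biUnion.2 ⟨σ, h1, h2⟩)
  have hvK : ∀ σ ∈ K.faces, v ∉ σ := fun σ h => hvL σ (hKL h)
  have hL0 : ∀ w ∈ L.space, w v = 0 := fun w ⟨_, σ, h1, h2, _⟩ => h2 v (hvL σ h1)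
  obtain ⟨t', ht'⟩ : ∃ t' : (ℕ → ℝ) → V, ∀ w, t' w =
      if w v = 1 then p else if w v = 0 then t w else H (t (rad v w)) (1 - w v) :=
    ⟨_, fun _ => rfl⟩
  have ha : ∀ w ∈ L.space, t' w = t w := fun w hw => by
    rw [ht', if_neg ((hL0 w hw).trans_ne zero_ne_one), if_pos (hL0 w hw)]
  have hY : ∀ w ∈ L.space, t' w ∈ Y := fun w hw => by
    rw [ha w hw, ← ht.img]
    exact mem_image_of_mem t hw
  have hp : t' (Pi.single v 1) = p := by rw [ht', if_pos (Pi.single_eq_same v 1)]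
  have hz : ∀ w, rad v w ∈ K.space → t (rad v w) ∈ B := fun w hw => (hK _ (hsub hw)).2 hw
  have hI : ∀ w : ℕ → ℝ, 0 ≤ w v → w v < 1 → 1 - w v ∈ Ioc (0 : ℝ) 1 := fun w h1 h2 =>
    ⟨sub_pos.2 h2, sub_le_self 1 h1⟩
  have hb : ∀ w : ℕ → ℝ, w v < 1 → rad v w ∈ K.space → t' w = H (t (rad v w)) (1 - w v) :=
    fun w h1 h2 => by
      rw [ht', if_neg h1.ne]
      split_ifs with h3
      · rw [h3, sub_zero, hc.one _ (hz w h2), cone_rad_zero h3]
      · rfl
  have hC : ∀ w ∈ (coneK K v).space, t' w ∈ C := fun w hw => by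
    rcases (mem_coneK hvK).1 hw with rfl | ⟨h1, h2, h3⟩
    · rw [hp]
      exact hc.pC
    · rw [hb w h2 h3]
      exact hc.mem _ (hz w h3) _ (hI w h1 h2)
  have hYL : ∀ w ∈ L.space ∪ (coneK K v).space, t' w ∈ Y → w ∈ L.space := by
    rintro w (hw | hw) hy
    · exact hw
    have h0 : t' w ∈ B := hB ▸ ⟨hC w hw, hy⟩
    rcases (mem_coneK hvK).1 hw with rfl | ⟨h1, h2, h3⟩
    · exact absurd (hp ▸ h0) hc.pB
    · rcases h1.eq_or_lt with h4 | h4
      · rw [cone_rad_zero h4.symm] at h3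
        exact hsub h3
      · rw [hb w h2 h3] at h0
        exact absurd h0 (hc.nb _ (hz w h3) _ ⟨sub_pos.2 h2, sub_lt_self 1 h4⟩)
  have hCK : ∀ w ∈ L.space ∪ (coneK K v).space, t' w ∈ C → w ∈ (coneK K v).space := by
    rintro w (hw | hw) hy
    · have h0 : t' w ∈ B := hB ▸ ⟨hy, hY w hw⟩
      rw [ha w hw] at h0
      exact cone_mono Finset.subset_union_left ((hK w hw).1 h0)
    · exact hw
  have hcone : ∀ w ∈ (coneK K v).space, w v < 1 → 0 ≤ w v ∧ rad v w ∈ K.space := fun w hw h => by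
    rcases (mem_coneK hvK).1 hw with rfl | ⟨h1, -, h3⟩
    · rw [Pi.single_eq_same] at h
      exact absurd h (lt_irrefl _)
    · exact ⟨h1, h3⟩
  have hcont : ContinuousOn t' (coneK K v).space := fun w₀ hw₀ => by
    rcases (mem_coneK hvK).1 hw₀ with rfl | ⟨-, h2, -⟩
    · rw [ContinuousWithinAt, hp, tendsto_iff_norm_sub_tendsto_zero]
      refine squeeze_zero' (g := fun w => M * (1 - w v))
        (Filter.Eventually.of_forall fun _ => norm_nonneg _) ?_ ?_
      · filter_upwards [self_mem_nhdsWithin] with w hw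
        rcases (mem_coneK hvK).1 hw with rfl | ⟨h1, h2, h3⟩
        · simp [hp]
        · rw [hb w h2 h3]
          exact hc.near _ (hz w h3) _ (hI w h1 h2)
      · refine tendsto_nhdsWithin_of_tendsto_nhds (Continuous.tendsto' (by fun_prop) _ _ ?_)
        simp
    · have h4 : ContinuousOn (fun w => H (t (rad v w)) (1 - w v))
          ((coneK K v).space ∩ {w | w v < 1}) :=
        hc.cont.comp (f := fun w : ℕ → ℝ => (t (rad v w), 1 - w v))
          ((ht.cont.comp ((cone_rad_cont v).mono inter_subset_right)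
            fun w hw => hsub (hcone w hw.1 hw.2).2).prodMk
            (continuous_const.sub (continuous_apply v)).continuousOn)
          fun w hw => ⟨hz w (hcone w hw.1 hw.2).2, hI w (hcone w hw.1 hw.2).1 hw.2⟩
      have h5 := (h4.congr fun w hw => hb w hw.2 (hcone w hw.1 hw.2).2) w₀ ⟨hw₀, h2⟩
      exact (continuousWithinAt_inter
        ((isOpen_lt (continuous_apply v) continuous_const).mem_nhds h2)).1 h5
  refine ⟨unionK L (coneK K v), t', ⟨?_, ?_, ?_⟩, ?_, ?_⟩
  · rw [space_unionK]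
    exact (ht.cont.congr ha).union_of_isClosed hcont (isCompact_space _).isClosed
      (isCompact_space _).isClosed
  · rw [space_unionK]
    intro w hw w' hw' e
    by_cases hy : t' w ∈ Y
    · have h1 := hYL w hw hy
      have h2 := hYL w' hw' (e ▸ hy)
      exact ht.inj h1 h2 (by rw [← ha w h1, ← ha w' h2, e])
    have h1 := hw.resolve_left fun h => hy (hY w h)
    have h2 := hw'.resolve_left fun h => hy (e ▸ hY w' h)
    rcases (mem_coneK hvK).1 h1 with rfl | ⟨a1, a2, a3⟩ <;>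
      rcases (mem_coneK hvK).1 h2 with rfl | ⟨b1, b2, b3⟩
    · rfl
    · rw [hp, hb w' b2 b3] at e
      exact absurd e.symm (hc.np _ (hz w' b3) _ (hI w' b1 b2))
    · rw [hp, hb w a2 a3] at e
      exact absurd e (hc.np _ (hz w a3) _ (hI w a1 a2))
    · rw [hb w a2 a3, hb w' b2 b3] at e
      obtain ⟨e1, e2⟩ := hc.inj _ (hz w a3) _ (hz w' b3) _ (hI w a1 a2) _ (hI w' b1 b2) e
      have e3 := ht.inj (hsub a3) (hsub b3) e1
      funext u
      by_cases hu : u = v
      · rw [hu]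
        exact sub_right_injective e2
      · rw [cone_rad_mul a2 hu, cone_rad_mul b2 hu, e2, e3]
  · rw [space_unionK]
    refine Subset.antisymm ?_ ?_
    · rintro _ ⟨w, hw | hw, rfl⟩
      · exact Or.inl (hY w hw)
      · exact Or.inr (hC w hw)
    · rintro y (hy | hy)
      · obtain ⟨w, hw, rfl⟩ := ht.img.symm ▸ hy
        exact ⟨w, Or.inl hw, ha w hw⟩
      by_cases hyp : y = p
      · exact ⟨_, Or.inr ((mem_coneK hvK).2 (Or.inl rfl)), hp.trans hyp.symm⟩
      obtain ⟨z, hzB, s, hs', rfl⟩ := hc.sur y hy hyp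
      have hzY : z ∈ Y := (hB.symm ▸ hzB : z ∈ C ∩ Y).2
      obtain ⟨w₀, hw₀, rfl⟩ := ht.img.symm ▸ hzY
      obtain ⟨w, hw⟩ : ∃ w : ℕ → ℝ, ∀ u, w u = if u = v then 1 - s else s * w₀ u :=
        ⟨_, fun _ => rfl⟩
      have h1 : w v = 1 - s := by rw [hw, if_pos rfl]
      have h2 : rad v w = w₀ := by
        funext u
        by_cases hu : u = v
        · rw [rad, if_pos hu, hu, hL0 w₀ hw₀]
        · rw [rad, if_neg hu, h1, hw, if_neg hu, sub_sub_cancel, inv_mul_cancel_left₀ hs'.1.ne']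
      have h3 : w v < 1 := h1.trans_lt (sub_lt_self 1 hs'.1)
      have h4 : rad v w ∈ K.space := h2.symm ▸ (hK w₀ hw₀).1 hzB
      refine ⟨w, Or.inr ((mem_coneK hvK).2 (Or.inr ⟨(sub_nonneg.2 hs'.2).trans_eq h1.symm, h3,
        h4⟩)), ?_⟩
      rw [hb w h3 h4, h2, h1, sub_sub_cancel]
  · intro w hw w' hw' h hy
    rw [space_unionK] at hw
    exact hC w' (cone_supp (hCK w hw hy) hw' h)
  · intro Z hZ hsZ w hw w' hw' h hy
    rw [space_unionK] at hw
    have h1 := hYL w hw (hZ hy)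
    have h2 := cone_supp h1 hw' h
    rw [ha w h1] at hy
    rw [ha w' h2]
    exact hsZ w h1 w' h2 h hy

/-- If `Z` is the disjoint union of two closed sets, each of them is a subcomplex: the segment from
`w` to `w'` lies in `L.space`, is mapped into `Z`, and is connected. -/
theorem Sat.part {L : SC} {t : (ℕ → ℝ) → V} {Y A B : Set V} (ht : Tr L t Y) (hA : IsClosed A)
    (hB : IsClosed B) (hd : Disjoint A B) (h : Sat L t (A ∪ B)) : Sat L t A := by
  intro w hw w' hw' hs hy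
  obtain ⟨h0, σ, h1, h2, h3⟩ := id hw
  obtain ⟨a0, τ, -, a2, a3⟩ := id hw'
  obtain ⟨T, hT⟩ : ∃ T : Set (ℕ → ℝ), ∀ x, x ∈ T ↔
      (∀ u, 0 ≤ x u) ∧ (∀ u, w u = 0 → x u = 0) ∧ ∑ u ∈ σ, x u = 1 := ⟨_, fun _ => Iff.rfl⟩
  have hsub : T ⊆ L.space := fun x hx =>
    ⟨((hT x).1 hx).1, σ, h1, fun u hu => ((hT x).1 hx).2.1 u (h2 u hu), ((hT x).1 hx).2.2⟩
  have hconv : Convex ℝ T := fun x hx y hy a c ha hc hac => by
    obtain ⟨x1, x2, x3⟩ := (hT x).1 hx
    obtain ⟨y1, y2, y3⟩ := (hT y).1 hy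
    refine (hT _).2 ⟨fun u => add_nonneg (mul_nonneg ha (x1 u)) (mul_nonneg hc (y1 u)),
      fun u hu => ?_, ?_⟩
    · simp [x2 u hu, y2 u hu]
    · simp only [Pi.add_apply, Pi.smul_apply, smul_eq_mul, Finset.sum_add_distrib,
        ← Finset.mul_sum, x3, y3, mul_one, hac]
  have hwT : w ∈ T := (hT w).2 ⟨h0, fun _ hu => hu, h3⟩
  have hwT' : w' ∈ T :=
    (hT w').2 ⟨a0, hs, (cone_sum (fun u hu => hs u (h2 u hu)) a2).trans a3⟩
  rcases isPreconnected_iff_subset_of_disjoint_closed.1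
    (hconv.isPreconnected.image t (ht.cont.mono hsub)) A B hA hB
    (by
      rintro _ ⟨x, hx, rfl⟩
      exact h w hw x (hsub hx) ((hT x).1 hx).2.1 (Or.inl hy))
    (by rw [hd.inter_eq, inter_empty]) with h4 | h4
  · exact h4 (mem_image_of_mem t hwT')
  · exact absurd (h4 (mem_image_of_mem t hwT)) (Set.disjoint_left.1 hd hy)

end Pool.Agent.Lib.MP_5ceaf9_gt.Tri
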