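import Pool.Agent.Lib.MP_5ceaf9_gt.Tri.GP

/-! Cutting a complex along a Voronoi diagram. -/

set_option linter.unusedSectionVars false

noncomputable section

namespace Pool.Agent.Lib.MP_5ceaf9_gt.Tri

open Classical Set Metric Topology

variable {V : Type} [NormedAddCommGroup V] [InnerProductSpace ℝ V] [FiniteDimensional ℝ V]
  {n : ℕ} [NeZero n] {S : Set V} {b : V →L[ℝ] ℝ}

section piece

variable {P : Finset V} {a : V → Af V} {G : Cell V} {I : Finset V} {x : V}

/-- the indices where the least value is taken -/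
def amin (P : Finset V) (a : V → Af V) (x : V) : Finset V :=
  P.filter (fun i => ∀ j ∈ P, ev (a i) x ≤ ev (a j) x)

theorem cut_mem_amin {i : V} : i ∈ amin P a x ↔ i ∈ P ∧ ∀ j ∈ P, ev (a i) x ≤ ev (a j) x :=
  Finset.mem_filter

theorem cut_amin_sub : amin P a x ⊆ P := Finset.filter_subset _ _

theorem cut_mem1 {f : Af V} : f ∈ (piece P a G I).1 ↔
    f ∈ G.1 ∨ ∃ i, (i ≠ base I ∧ i ∈ I) ∧ a i - a (base I) = f := by
  simp only [piece, Finset.mem_union, Finset.mem_image, Finset.mem_erase]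

theorem cut_mem2 {f : Af V} : f ∈ (piece P a G I).2 ↔
    f ∈ G.2 ∨ ∃ j, (j ∈ P ∧ j ∉ I) ∧ a j - a (base I) = f := by
  simp only [piece, Finset.mem_union, Finset.mem_image, Finset.mem_sdiff]

theorem amin_nonempty (hP : P.Nonempty) (a : V → Af V) (x : V) : (amin P a x).Nonempty := by
  obtain ⟨i, hi, h⟩ := Finset.exists_min_image P (fun i => ev (a i) x) hP
  exact ⟨i, cut_mem_amin.2 ⟨hi, h⟩⟩

theorem mem_cl_piece (hI : I ⊆ P) (hn : I.Nonempty) :
    x ∈ cl S (piece P a G I) ↔ x ∈ cl S G ∧ I ⊆ amin P a x := by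
  have h0 := base_mem hn
  constructor
  · rintro ⟨hS, h1, h2⟩
    refine ⟨⟨hS, fun f hf => h1 f (cut_mem1.2 (.inl hf)), fun f hf => h2 f (cut_mem2.2 (.inl hf))⟩,
      fun i hi => cut_mem_amin.2 ⟨hI hi, fun j hj => ?_⟩⟩
    have e : ∀ k ∈ I, ev (a k) x = ev (a (base I)) x := fun k hk => by
      by_cases hk0 : k = base I
      · rw [hk0]
      · have := h1 _ (cut_mem1.2 (.inr ⟨k, ⟨hk0, hk⟩, rfl⟩))
        rw [ev_sub] at this
        linarith
    rw [e i hi]
    by_cases hjI : j ∈ I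
    · rw [e j hjI]
    · have := h2 _ (cut_mem2.2 (.inr ⟨j, ⟨hj, hjI⟩, rfl⟩))
      rw [ev_sub] at this
      linarith
  · rintro ⟨⟨hS, h1, h2⟩, h3⟩
    have hb := cut_mem_amin.1 (h3 h0)
    refine ⟨hS, fun f hf => ?_, fun f hf => ?_⟩
    · rcases cut_mem1.1 hf with hf | ⟨i, ⟨-, hi⟩, rfl⟩
      · exact h1 f hf
      · have := (cut_mem_amin.1 (h3 hi)).2 _ hb.1
        have := hb.2 i (hI hi)
        rw [ev_sub]
        linarith
    · rcases cut_mem2.1 hf with hf | ⟨j, ⟨hj, -⟩, rfl⟩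
      · exact h2 f hf
      · have := hb.2 j hj
        rw [ev_sub]
        linarith

theorem mem_op_piece (hI : I ⊆ P) (hn : I.Nonempty) :
    x ∈ op S (piece P a G I) ↔ x ∈ op S G ∧ I = amin P a x := by
  have h0 := base_mem hn
  constructor
  · intro h
    have h3 := ((mem_cl_piece hI hn).1 (op_sub _ _ h)).2
    obtain ⟨hS, h1, h2⟩ := h
    refine ⟨⟨hS, fun f hf => h1 f (cut_mem1.2 (.inl hf)), fun f hf => h2 f (cut_mem2.2 (.inl hf))⟩,
      Finset.Subset.antisymm h3 fun j hj => ?_⟩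
    by_contra hjI
    have hj' := cut_mem_amin.1 hj
    have h4 := h2 _ (cut_mem2.2 (.inr ⟨j, ⟨hj'.1, hjI⟩, rfl⟩))
    have h5 := hj'.2 _ (hI h0)
    rw [ev_sub] at h4
    linarith
  · rintro ⟨h, h3⟩
    have hc := (mem_cl_piece (a := a) hI hn).2 ⟨op_sub _ _ h, h3.le⟩
    refine ⟨hc.1, hc.2.1, fun f hf => ?_⟩
    rcases cut_mem2.1 hf with hf | ⟨j, ⟨hj, hjI⟩, rfl⟩
    · exact h.2.2 f hf
    · have hb := cut_mem_amin.1 (h3.le h0)
      rw [ev_sub]
      by_contra h4
      refine hjI (h3.ge (cut_mem_amin.2 ⟨hj, fun k hk => ?_⟩))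
      have := hb.2 k hk
      linarith

theorem card_piece {C : Finset (Cell V)} (hf : Fresh C P a) (hG : G ∈ C) (hI : I ⊆ P)
    (hn : I.Nonempty) : (piece P a G I).1.card + 1 = G.1.card + I.card := by
  have h0 := base_mem hn
  have hd : Disjoint G.1 ((I.erase (base I)).image (fun i => a i - a (base I))) := by
    rw [Finset.disjoint_right]
    intro f hf'
    obtain ⟨i, hi, rfl⟩ := Finset.mem_image.1 hf'
    have hi' := Finset.mem_erase.1 hi
    exact ((hf i (hI hi'.2) _ (hI h0) hi'.1).2 G hG).1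
  have hi : Set.InjOn (fun i => a i - a (base I)) (I.erase (base I) : Finset V) := by
    intro i hi j hj e
    by_contra hne
    exact (hf i (hI (Finset.mem_of_mem_erase hi)) j (hI (Finset.mem_of_mem_erase hj)) hne).1
      (sub_left_injective e)
  have h1 := hn.card_pos
  simp only [piece]
  rw [Finset.card_union_of_disjoint hd, Finset.card_image_of_injOn hi, Finset.card_erase_of_mem h0]
  omega

/-- at `x` the active set is `act G x ∪ ((amin P a x).erase (base I)).image _`; `gp_ind` -/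
theorem reg_piece {C : Finset (Cell V)} (hg : GP S C P a) (hf : Fresh C P a) (hG : G ∈ C)
    (hr : Reg S b G) (hI : I ⊆ P) (hn : I.Nonempty) : Reg S b (piece P a G I) := by
  have h0 := base_mem hn
  refine ⟨hr.hb.imp (fun h => cut_mem1.2 (.inl h)) fun h => cut_mem2.2 (.inl h), ?_, fun x hx => ?_⟩
  · rw [Finset.disjoint_left]
    intro f h1 h2
    rcases cut_mem1.1 h1 with h1 | ⟨i, ⟨hi0, hi⟩, rfl⟩
    · rcases cut_mem2.1 h2 with h2 | ⟨j, ⟨hj, hjI⟩, rfl⟩
      · exact Finset.disjoint_left.1 hr.dj h1 h2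
      · exact ((hf j hj _ (hI h0) fun e => hjI (e ▸ h0)).2 G hG).1 h1
    · rcases cut_mem2.1 h2 with h2 | ⟨j, ⟨hj, hjI⟩, e⟩
      · exact ((hf i (hI hi) _ (hI h0) hi0).2 G hG).2 h2
      · exact (hf j hj i (hI hi) fun e => hjI (e ▸ hi)).1 (sub_left_injective e)
  · obtain ⟨hxG, hs⟩ := (mem_cl_piece hI hn).1 hx
    have he : ∀ i ∈ amin P a x, ∀ j ∈ amin P a x, ev (a i) x = ev (a j) x := fun i hi j hj =>
      le_antisymm ((cut_mem_amin.1 hi).2 j (cut_amin_sub hj))
        ((cut_mem_amin.1 hj).2 i (cut_amin_sub hi))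
    have e : act (piece P a G I) x =
        act G x ∪ ((amin P a x).erase (base I)).image (fun i => a i - a (base I)) := by
      ext f
      rw [Finset.mem_union, mem_act, mem_act, cut_mem1, cut_mem2, Finset.mem_image]
      constructor
      · rintro ⟨(h1 | ⟨i, ⟨hi0, hi⟩, rfl⟩) | (h1 | ⟨j, ⟨hj, hjI⟩, rfl⟩), h2⟩
        · exact .inl ⟨.inl h1, h2⟩
        · exact .inr ⟨i, Finset.mem_erase.2 ⟨hi0, hs hi⟩, rfl⟩
        · exact .inl ⟨.inr h1, h2⟩
        · refine .inr ⟨j, Finset.mem_erase.2 ⟨fun e => hjI (e ▸ h0),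
            cut_mem_amin.2 ⟨hj, fun k hk => ?_⟩⟩, rfl⟩
          have := (cut_mem_amin.1 (hs h0)).2 k hk
          rw [ev_sub] at h2
          linarith
      · rintro (⟨h1 | h1, h2⟩ | ⟨i, hi, rfl⟩)
        · exact ⟨.inl (.inl h1), h2⟩
        · exact ⟨.inr (.inl h1), h2⟩
        · have hi' := Finset.mem_erase.1 hi
          refine ⟨?_, by rw [ev_sub, he i hi'.2 _ (hs h0), sub_self]⟩
          by_cases hiI : i ∈ I
          · exact .inl (.inr ⟨i, ⟨hi'.1, hiI⟩, rfl⟩)
          · exact .inr (.inr ⟨i, ⟨cut_amin_sub hi'.2, hiI⟩, rfl⟩)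
    rw [e]
    exact gp_ind hg hf hG hxG cut_amin_sub he (hs h0)

end piece

variable {X : Finset (Cell V)} {F : Cell V} {P : Finset V} {a : V → Af V}

theorem mem_cutX {c : Cell V} : c ∈ cutX X F P a ↔ (c ∈ X ∧ c ∉ low X F) ∨
    ∃ G ∈ low X F, ∃ I ⊆ P, I.Nonempty ∧ c = piece P a G I := by
  rw [cutX, Finset.mem_union, Finset.mem_sdiff, Finset.mem_image]
  refine or_congr Iff.rfl ⟨?_, ?_⟩
  · rintro ⟨⟨G, I⟩, h, rfl⟩
    rw [Finset.mem_product, Finset.mem_erase, Finset.mem_powerset] at h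
    exact ⟨G, h.1, I, h.2.2, Finset.nonempty_iff_ne_empty.2 h.2.1, rfl⟩
  · rintro ⟨G, hG, I, hI, hn, rfl⟩
    exact ⟨(G, I), Finset.mem_product.2
      ⟨hG, Finset.mem_erase.2 ⟨hn.ne_empty, Finset.mem_powerset.2 hI⟩⟩, rfl⟩

theorem cut_mem_low {c : Cell V} : c ∈ low X F ↔ c ∈ X ∧ (c = F ∨ F.1.card < c.1.card) :=
  Finset.mem_filter

theorem cut_low_le {c : Cell V} (h : c ∈ low X F) : F.1.card ≤ c.1.card := by
  rcases (cut_mem_low.1 h).2 with e | e
  · rw [e]
  · exact e.le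

theorem cut_piece_mem (hP : P.Nonempty) {G : Cell V} (hG : G ∈ low X F) (x : V) :
    piece P a G (amin P a x) ∈ cutX X F P a :=
  mem_cutX.2 (.inr ⟨G, hG, _, cut_amin_sub, amin_nonempty hP a x, rfl⟩)

/-- `bd` for a piece `(G, I)` and a point `x`: take `G' = G` if `x ∈ op S G`, else the cell given by
`bd` of `X` (it lies in `low X F`), and `I' = amin P a x`. For an uncut cell (codimension at most
that of `F`): the cell `G'` given by `bd` of `X` is uncut or is replaced by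
`piece P a G' (amin P a x)`. -/
theorem cut_cpx (hX : Cpx S b X) (hP : P.Nonempty) (hg : GP S (low X F) P a)
    (hf : Fresh (low X F) P a) : Cpx S b (cutX X F P a) := by
  refine ⟨fun c hc => ?_, fun c hc c' hc' x hx hx' => ?_, fun c hc x hx hx' => ?_⟩
  · rcases mem_cutX.1 hc with h | ⟨G, hG, I, hI, hn, rfl⟩
    · exact hX.reg c h.1
    · exact reg_piece hg hf hG (hX.reg G (cut_mem_low.1 hG).1) hI hn
  · rcases mem_cutX.1 hc with h | ⟨G, hG, I, hI, hn, rfl⟩
    · rcases mem_cutX.1 hc' with h' | ⟨G', hG', I', hI', hn', rfl⟩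
      · exact hX.dis c h.1 c' h'.1 x hx hx'
      · have e := hX.dis c h.1 G' (cut_mem_low.1 hG').1 x hx ((mem_op_piece hI' hn').1 hx').1
        exact absurd (e ▸ hG') h.2
    · have h1 := (mem_op_piece hI hn).1 hx
      rcases mem_cutX.1 hc' with h' | ⟨G', hG', I', hI', hn', rfl⟩
      · have e := hX.dis c' h'.1 G (cut_mem_low.1 hG).1 x hx' h1.1
        exact absurd (e ▸ hG) h'.2
      · have h2 := (mem_op_piece hI' hn').1 hx'
        rw [hX.dis G (cut_mem_low.1 hG).1 G' (cut_mem_low.1 hG').1 x h1.1 h2.1, h1.2, h2.2]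
  · have hA := amin_nonempty hP a x
    rcases mem_cutX.1 hc with h | ⟨G, hG, I, hI, hn, rfl⟩
    · obtain ⟨G', hG', h1, h2, h3⟩ := hX.bd c h.1 x hx hx'
      by_cases hl : G' ∈ low X F
      · refine ⟨_, cut_piece_mem hP hl x, ?_, (mem_op_piece cut_amin_sub hA).2 ⟨h2, rfl⟩,
          fun y hy => h3 ((mem_cl_piece cut_amin_sub hA).1 hy).1⟩
        have h4 := card_piece hf hl cut_amin_sub hA
        have h5 := hA.card_pos
        omega
      · exact ⟨G', mem_cutX.2 (.inl ⟨hG', hl⟩), h1, h2, h3⟩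
    · obtain ⟨hxG, hs⟩ := (mem_cl_piece hI hn).1 hx
      have h6 := card_piece hf hG hI hn
      by_cases ho : x ∈ op S G
      · refine ⟨_, cut_piece_mem hP hG x, ?_, (mem_op_piece cut_amin_sub hA).2 ⟨ho, rfl⟩,
          fun y hy => ?_⟩
        · have h4 := card_piece hf hG cut_amin_sub hA
          have h5 := Finset.card_lt_card
            (Finset.ssubset_iff_subset_ne.2 ⟨hs, fun e => hx' ((mem_op_piece hI hn).2 ⟨ho, e⟩)⟩)
          omega
        · have h4 := (mem_cl_piece cut_amin_sub hA).1 hy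
          exact (mem_cl_piece hI hn).2 ⟨h4.1, hs.trans h4.2⟩
      · obtain ⟨G', hG', h1, h2, h3⟩ := hX.bd G (cut_mem_low.1 hG).1 x hxG ho
        have hl : G' ∈ low X F := cut_mem_low.2 ⟨hG', .inr ((cut_low_le hG).trans_lt h1)⟩
        refine ⟨_, cut_piece_mem hP hl x, ?_, (mem_op_piece cut_amin_sub hA).2 ⟨h2, rfl⟩,
          fun y hy => ?_⟩
        · have h4 := card_piece hf hl cut_amin_sub hA
          have h5 := Finset.card_le_card hs
          omega
        · have h4 := (mem_cl_piece cut_amin_sub hA).1 hy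
          exact (mem_cl_piece hI hn).2 ⟨h3 h4.1, hs.trans h4.2⟩

theorem cut_refines (hP : P.Nonempty) : Refines S (cutX X F P a) X := by
  refine ⟨fun c hc x hx => ?_, fun c hc => ?_⟩
  · have hA := amin_nonempty hP a x
    by_cases hl : c ∈ low X F
    · exact ⟨_, cut_piece_mem hP hl x, (mem_cl_piece cut_amin_sub hA).2 ⟨hx, Finset.Subset.rfl⟩,
        fun y hy => ((mem_cl_piece cut_amin_sub hA).1 hy).1⟩
    · exact ⟨c, mem_cutX.2 (.inl ⟨hc, hl⟩), hx, Subset.rfl⟩
  · rcases mem_cutX.1 hc with h | ⟨G, hG, I, hI, hn, rfl⟩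
    · exact ⟨c, h.1, Subset.rfl⟩
    · exact ⟨G, (cut_mem_low.1 hG).1, fun y hy => ((mem_cl_piece hI hn).1 hy).1⟩

theorem cut_card (hk : ∀ c ∈ X, F.1.card ≤ c.1.card) (hf : Fresh (low X F) P a) :
    ∀ c ∈ cutX X F P a, F.1.card ≤ c.1.card ∧ (c.1.card = F.1.card →
      (c ∈ X ∧ c ≠ F) ∨ ∃ i ∈ P, c = (F.1, F.2 ∪ (P.erase i).image (fun j => a j - a i))) := by
  intro c hc
  rcases mem_cutX.1 hc with h | ⟨G, hG, I, hI, hn, rfl⟩
  · exact ⟨hk c h.1, fun _ => .inl ⟨h.1, fun e => h.2 (cut_mem_low.2 ⟨h.1, .inl e⟩)⟩⟩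
  · have h1 := card_piece hf hG hI hn
    have h2 := cut_low_le hG
    have h3 := hn.card_pos
    refine ⟨by omega, fun e => .inr ?_⟩
    obtain rfl : G = F := (cut_mem_low.1 hG).2.resolve_right (by omega)
    obtain ⟨i, rfl⟩ := Finset.card_eq_one.1 (show I.card = 1 by omega)
    have hb : base ({i} : Finset V) = i := Finset.mem_singleton.1 (base_mem hn)
    refine ⟨i, hI (Finset.mem_singleton_self i), ?_⟩
    rw [piece, hb, Finset.erase_singleton, Finset.image_empty, Finset.union_empty,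
      Finset.sdiff_singleton_eq_erase]

end Pool.Agent.Lib.MP_5ceaf9_gt.Tri
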