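import Pool.Agent.Lib.MP_5ceaf9_gt.Defs0

/-! Triangulation of compact smooth manifolds with boundary: definitions used in the proof. -/

set_option linter.unusedSectionVars false

noncomputable section

namespace Pool.Agent.Lib.MP_5ceaf9_gt.Tri

open Classical Set Metric Topology

/-- The model space. -/
abbrev E (n : ℕ) : Type := EuclideanSpace ℝ (Fin n)

/-- Affine functions: linear part and constant. -/
abbrev Af (V : Type) [NormedAddCommGroup V] [InnerProductSpace ℝ V] : Type := (V →L[ℝ] ℝ) × ℝ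

/-- Cells: equations and inequalities. -/
abbrev Cell (V : Type) [NormedAddCommGroup V] [InnerProductSpace ℝ V] : Type :=
  Finset (Af V) × Finset (Af V)

variable {V : Type} [NormedAddCommGroup V] [InnerProductSpace ℝ V] {n : ℕ} [NeZero n]

/-- The value of an affine function. -/
def ev (f : Af V) (x : V) : ℝ := f.1 x + f.2

@[simp] theorem ev_sub (f g : Af V) (x : V) : ev (f - g) x = ev f x - ev g x := by
  simp only [ev, Prod.fst_sub, Prod.snd_sub, sub_apply]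
  ring

@[simp] theorem ev_b (b : V →L[ℝ] ℝ) (x : V) : ev (b, 0) x = b x := add_zero _

theorem continuous_ev (f : Af V) : Continuous (ev f) := f.1.continuous.add continuous_const

/-- The conormal space of `S` at `x`: linear forms whose derivative along `S` vanishes. -/
def Ann (S : Set V) (x : V) : Submodule ℝ (V →L[ℝ] ℝ) where
  carrier := {ν | HasFDerivWithinAt (fun y => ν y) (0 : V →L[ℝ] ℝ) S x}
  add_mem' := fun {ν ν'} h h' => by
    have := HasFDerivWithinAt.add h h'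
    rw [add_zero] at this
    exact this
  zero_mem' := hasFDerivWithinAt_const (0 : ℝ) x S
  smul_mem' := fun c ν h => by
    have := HasFDerivWithinAt.const_smul h c
    rw [smul_zero] at this
    exact this

theorem mem_Ann {S : Set V} {x : V} {ν : V →L[ℝ] ℝ} :
    ν ∈ Ann S x ↔ HasFDerivWithinAt (fun y => ν y) (0 : V →L[ℝ] ℝ) S x := Iff.rfl

/-- The differentials along `S` at `x` of the functions in `T` are independent. -/
def Ind (S : Set V) (x : V) (T : Finset (Af V)) : Prop :=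
  ∀ μ : Af V → ℝ, ∑ f ∈ T, μ f • f.1 ∈ Ann S x → ∀ f ∈ T, μ f = 0

/-- A ball in the half space. -/
def HB (u : E n) (r : ℝ) : Set (E n) := ball u r ∩ {y | 0 ≤ y 0}

/-- A parametrisation of `S` near `x` with a linear left inverse; `b` defines the boundary. -/
structure Par (S : Set V) (b : V →L[ℝ] ℝ) (x : V) (ψ : E n → V) (π : V →L[ℝ] E n) (u : E n)
    (r : ℝ) (O : Set V) : Prop where
  pos : 0 < r
  u0 : 0 ≤ u 0
  sm : ContDiffOn ℝ 2 ψ (HB u r)
  ctr : ψ u = x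
  mem : MapsTo ψ (HB u r) S
  opn : IsOpen O
  xO : x ∈ O
  cov : S ∩ O ⊆ ψ '' HB u r
  inv : ∀ y ∈ HB u r, π (ψ y) = y
  ge : ∀ y ∈ HB u r, y 0 ≤ b (ψ y)
  bd : ∀ y ∈ HB u r, y 0 = 0 → b (ψ y) = 0

/-- A compact `n`-dimensional submanifold with boundary `S ∩ ker b`. -/
structure Nice (n : ℕ) [NeZero n] (S : Set V) (b : V →L[ℝ] ℝ) : Prop where
  cpt : IsCompact S
  par : ∀ x ∈ S, ∃ (ψ : E n → V) (π : V →L[ℝ] E n) (u : E n) (r : ℝ) (O : Set V),
    Par S b x ψ π u r O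

/-- The domain of a straightening chart. -/
def Dom (b : V →L[ℝ] ℝ) (T : Finset (Af V)) (ι : Af V → Fin n) (r : ℝ) : Set (E n) :=
  {y | ‖y‖ < r ∧ ((b, 0) ∈ T → 0 ≤ y (ι (b, 0)))}

/-- A chart at `x`, close to a linear map, in which the functions in `T` are coordinates. -/
structure Str (S : Set V) (b : V →L[ℝ] ℝ) (x : V) (T : Finset (Af V)) (ι : Af V → Fin n) (r : ℝ)
    (Ψ : E n → V) (L : E n →L[ℝ] V) (Λ : V →L[ℝ] E n) (c : ℝ) (O : Set V) : Prop where
  pos : 0 < r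
  inj : InjOn ι T
  ctr : Ψ 0 = x
  mem : MapsTo Ψ (Dom b T ι r) S
  opn : IsOpen O
  xO : x ∈ O
  cov : S ∩ O ⊆ Ψ '' Dom b T ι r
  inv : ∀ y ∈ Dom b T ι r, Λ (Ψ y - x) = y
  val : ∀ f ∈ T, ∀ y ∈ Dom b T ι r, ev f (Ψ y) = y (ι f)
  c0 : 0 ≤ c
  small : ‖Λ‖ * c ≤ 1 / 100
  app : ∀ y ∈ Dom b T ι r, ∀ y' ∈ Dom b T ι r, ‖Ψ y - Ψ y' - L (y - y')‖ ≤ c * ‖y - y'‖

/-- The closed cell. -/
def cl (S : Set V) (c : Cell V) : Set V :=
  {x | x ∈ S ∧ (∀ f ∈ c.1, ev f x = 0) ∧ ∀ f ∈ c.2, 0 ≤ ev f x}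

/-- The open cell. -/
def op (S : Set V) (c : Cell V) : Set V :=
  {x | x ∈ S ∧ (∀ f ∈ c.1, ev f x = 0) ∧ ∀ f ∈ c.2, 0 < ev f x}

theorem op_sub (S : Set V) (c : Cell V) : op S c ⊆ cl S c :=
  fun _ h => ⟨h.1, h.2.1, fun f hf => (h.2.2 f hf).le⟩

theorem isCompact_cl {S : Set V} (h : IsCompact S) (c : Cell V) : IsCompact (cl S c) := by
  have e : cl S c = S ∩ ((⋂ f ∈ c.1, {x | ev f x = 0}) ∩ ⋂ f ∈ c.2, {x | 0 ≤ ev f x}) := by
    ext x
    simp only [cl, mem_inter_iff, mem_iInter, mem_ofPred_eq]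
  rw [e]
  exact h.inter_right ((isClosed_biInter fun f _ =>
    isClosed_eq (continuous_ev f) continuous_const).inter
    (isClosed_biInter fun f _ => isClosed_le continuous_const (continuous_ev f)))

/-- The functions of the cell that vanish at `x`. -/
def act (c : Cell V) (x : V) : Finset (Af V) := (c.1 ∪ c.2).filter (fun f => ev f x = 0)

theorem mem_act {c : Cell V} {x : V} {f : Af V} :
    f ∈ act c x ↔ (f ∈ c.1 ∨ f ∈ c.2) ∧ ev f x = 0 := by
  simp [act]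

/-- A regular cell: a manifold with corners. -/
structure Reg (S : Set V) (b : V →L[ℝ] ℝ) (c : Cell V) : Prop where
  hb : (b, 0) ∈ c.1 ∨ (b, 0) ∈ c.2
  dj : Disjoint c.1 c.2
  ind : ∀ x ∈ cl S c, Ind S x (act c x)

/-- A complex of regular cells. The codimension of `c` is `c.1.card`. -/
structure Cpx (S : Set V) (b : V →L[ℝ] ℝ) (X : Finset (Cell V)) : Prop where
  reg : ∀ c ∈ X, Reg S b c
  dis : ∀ c ∈ X, ∀ c' ∈ X, ∀ x, x ∈ op S c → x ∈ op S c' → c = c'
  bd : ∀ c ∈ X, ∀ x ∈ cl S c, x ∉ op S c →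
    ∃ c' ∈ X, c.1.card < c'.1.card ∧ x ∈ op S c' ∧ cl S c' ⊆ cl S c

/-- Functions that are tangent to the system `T` at a zero in `Z`. -/
def Bad (S : Set V) (T : Finset (Af V)) (Z : Set V) : Set (Af V) :=
  {g | ∃ x ∈ Z, ev g x = 0 ∧ g.1 ∈ Submodule.span ℝ (Prod.fst '' (T : Set (Af V))) ⊔ Ann S x}

/-- General position of the functions `a i`, `i ∈ P`, with respect to the cells in `C`. -/
def GP (S : Set V) (C : Finset (Cell V)) (P : Finset V) (a : V → Af V) : Prop :=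
  ∀ G ∈ C, ∀ x ∈ cl S G, ∀ I ⊆ P, (∀ i ∈ I, ∀ j ∈ I, ev (a i) x = ev (a j) x) →
    ∀ (μ : Af V → ℝ) (l : V → ℝ), ∑ i ∈ I, l i = 0 →
      ∑ f ∈ act G x, μ f • f.1 + ∑ i ∈ I, l i • (a i).1 ∈ Ann S x →
        (∀ f ∈ act G x, μ f = 0) ∧ ∀ i ∈ I, l i = 0

/-- The differences are new functions. -/
def Fresh (C : Finset (Cell V)) (P : Finset V) (a : V → Af V) : Prop :=
  ∀ i ∈ P, ∀ j ∈ P, i ≠ j → a i ≠ a j ∧ ∀ G ∈ C, a i - a j ∉ G.1 ∧ a i - a j ∉ G.2

/-- The two estimates of a perturbed Voronoi diagram. -/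
structure Marg (S : Set V) (F : Cell V) (ε : ℝ) (P : Finset V) (a : V → Af V) : Prop where
  mar : ∀ i ∈ P, ∀ j ∈ P, i ≠ j → ε / 4 * ‖(a j - a i).1‖ < ev (a j - a i) i
  loc : ∀ i ∈ P, ∀ x ∈ cl S F, (∀ j ∈ P, ev (a i) x ≤ ev (a j) x) → dist x i < 2 * ε

/-- `C` is a cone on `B` with vertex `p`. -/
structure Cone (C B : Set V) (p : V) (H : V → ℝ → V) (M : ℝ) : Prop where
  cont : ContinuousOn (fun q : V × ℝ => H q.1 q.2) (B ×ˢ Ioc 0 1)
  one : ∀ z ∈ B, H z 1 = z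
  near : ∀ z ∈ B, ∀ s ∈ Ioc (0 : ℝ) 1, ‖H z s - p‖ ≤ M * s
  mem : ∀ z ∈ B, ∀ s ∈ Ioc (0 : ℝ) 1, H z s ∈ C
  nb : ∀ z ∈ B, ∀ s ∈ Ioo (0 : ℝ) 1, H z s ∉ B
  pC : p ∈ C
  pB : p ∉ B
  np : ∀ z ∈ B, ∀ s ∈ Ioc (0 : ℝ) 1, H z s ≠ p
  inj : ∀ z ∈ B, ∀ z' ∈ B, ∀ s ∈ Ioc (0 : ℝ) 1, ∀ s' ∈ Ioc (0 : ℝ) 1, H z s = H z' s' →
    z = z' ∧ s = s'
  sur : ∀ y ∈ C, y ≠ p → ∃ z ∈ B, ∃ s ∈ Ioc (0 : ℝ) 1, H z s = y

/-- The cell is empty or a cone on its boundary. -/
def Con (S : Set V) (c : Cell V) : Prop :=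
  cl S c = ∅ ∨ ∃ p H M, Cone (cl S c) (cl S c \ op S c) p H M

/-- A chosen element. -/
def base (I : Finset V) : V := if h : I.Nonempty then h.choose else 0

theorem base_mem {I : Finset V} (h : I.Nonempty) : base I ∈ I := by
  rw [base, dif_pos h]
  exact h.choose_spec

/-- The part of `G` where all `a i`, `i ∈ I`, are least among the `a j`, `j ∈ P`. -/
def piece (P : Finset V) (a : V → Af V) (G : Cell V) (I : Finset V) : Cell V :=
  (G.1 ∪ (I.erase (base I)).image (fun i => a i - a (base I)),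
    G.2 ∪ (P \ I).image (fun j => a j - a (base I)))

/-- The cells to be cut: `F` and all cells of greater codimension. -/
def low (X : Finset (Cell V)) (F : Cell V) : Finset (Cell V) :=
  X.filter (fun c => c = F ∨ F.1.card < c.1.card)

/-- The complex after the cut. -/
def cutX (X : Finset (Cell V)) (F : Cell V) (P : Finset V) (a : V → Af V) : Finset (Cell V) :=
  (X \ low X F) ∪ (low X F ×ˢ P.powerset.erase ∅).image (fun q => piece P a q.1 q.2)

/-- Every closed cell of `X` is a union of closed cells of `X'`, and both cover the same set. -/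
def Refines (S : Set V) (X' X : Finset (Cell V)) : Prop :=
  (∀ c ∈ X, ∀ x ∈ cl S c, ∃ c' ∈ X', x ∈ cl S c' ∧ cl S c' ⊆ cl S c) ∧
    ∀ c' ∈ X', ∃ c ∈ X, cl S c' ⊆ cl S c

/-- `t` is a triangulation of `Y`. -/
structure Tr (L : SC) (t : (ℕ → ℝ) → V) (Y : Set V) : Prop where
  cont : ContinuousOn t L.space
  inj : InjOn t L.space
  img : t '' L.space = Y

/-- `Z` is the image of a subcomplex. -/
def Sat (L : SC) (t : (ℕ → ℝ) → V) (Z : Set V) : Prop :=
  ∀ w ∈ L.space, ∀ w' ∈ L.space, (∀ v, w v = 0 → w' v = 0) → t w ∈ Z → t w' ∈ Z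

/-- The union of the cells has a triangulation in which all cells are subcomplexes. -/
def TriX (S : Set V) (X : Finset (Cell V)) : Prop :=
  ∃ (L : SC) (t : (ℕ → ℝ) → V), Tr L t (⋃ c ∈ X, cl S c) ∧ ∀ c ∈ X, Sat L t (cl S c)

theorem isCompact_space (K : SC) : IsCompact K.space := by
  refine (isCompact_univ_pi fun _ : ℕ =>
    isCompact_Icc (a := (0 : ℝ)) (b := 1)).of_isClosed_subset ?_ fun w hw v _ => ⟨hw.1 v, ?_⟩
  · have e : K.space = (⋂ v, {w : ℕ → ℝ | 0 ≤ w v}) ∩ ⋃ σ ∈ K.faces,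
        (⋂ v, ⋂ _ : v ∉ σ, {w : ℕ → ℝ | w v = 0}) ∩ {w | ∑ v ∈ σ, w v = 1} := by
      ext w
      simp only [SC.space, Set.mem_ofPred_eq, Set.mem_inter_iff, Set.mem_iInter, Set.mem_iUnion,
        exists_prop]
    rw [e]
    exact (isClosed_iInter fun v => isClosed_le continuous_const (continuous_apply v)).inter
      (isClosed_biUnion_finset fun σ _ => (isClosed_iInter fun v => isClosed_iInter fun _ =>
        isClosed_eq (continuous_apply v) continuous_const).inter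
        (isClosed_eq (by fun_prop) continuous_const))
  · obtain ⟨h0, σ, -, h2, h3⟩ := hw
    by_cases hv : v ∈ σ
    · exact (Finset.single_le_sum (fun u _ => h0 u) hv).trans_eq h3
    · rw [h2 v hv]
      exact zero_le_one

end Pool.Agent.Lib.MP_5ceaf9_gt.Tri
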