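import Pool.Agent.Lib.MP_5ceaf9_gt.Tri.Defs

/-! A compact manifold with boundary as a subset of a Euclidean space. -/

set_option linter.unusedSectionVars false

noncomputable section

namespace Pool.Agent.Lib.MP_5ceaf9_gt.Tri

open Classical Set Metric Topology
open scoped Manifold ContDiff

variable {n : ℕ} [NeZero n] {W : Type} [TopologicalSpace W] [T2Space W] [CompactSpace W]
  [ChartedSpace (EuclideanHalfSpace n) W] [IsManifold (𝓡∂ n) ∞ W]

theorem emb_nonneg (c x : W) : 0 ≤ extChartAt (𝓡∂ n) c x 0 :=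
  (chartAt (EuclideanHalfSpace n) c x).2

/-- a point of a chart domain is a boundary point iff its first coordinate vanishes
(`ModelWithCorners.isBoundaryPoint_iff_of_mem_atlas` or `isInteriorPoint_iff_of_mem_atlas`,
`interior_range_modelWithCornersEuclideanHalfSpace`) -/
theorem bd_iff (c : W) {x : W} (hx : x ∈ (chartAt (EuclideanHalfSpace n) c).source) :
    x ∈ (𝓡∂ n).boundary W ↔ extChartAt (𝓡∂ n) c x 0 = 0 := by
  have h0 : 0 ≤ extChartAt (𝓡∂ n) c x 0 := emb_nonneg c x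
  have h1 : (𝓡∂ n).IsInteriorPoint x ↔ 0 < extChartAt (𝓡∂ n) c x 0 := by
    rw [ModelWithCorners.isInteriorPoint_iff_of_mem_atlas (n := ∞) (by simp)
      (chart_mem_atlas (EuclideanHalfSpace n) c) hx]
    constructor
    · intro h
      have h2 := OpenPartialHomeomorph.interior_extend_target_subset_interior_range _ h
      rw [interior_range_modelWithCornersEuclideanHalfSpace] at h2
      exact h2
    · intro h
      refine (chartAt (EuclideanHalfSpace n) c).mem_interior_extend_target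
        ((chartAt (EuclideanHalfSpace n) c).map_source hx) ?_
      rw [interior_range_modelWithCornersEuclideanHalfSpace]
      exact h
  have h2 : x ∈ (𝓡∂ n).boundary W ↔ ¬ (𝓡∂ n).IsInteriorPoint x :=
    ModelWithCorners.isBoundaryPoint_iff_not_isInteriorPoint x
  rw [h2, h1]
  exact ⟨fun h => le_antisymm (not_lt.1 h) h0, fun h => by rw [h]; exact lt_irrefl _⟩

/-- Take a finite smooth bump covering `f` (`SmoothBumpCovering.exists_isSubordinate`, finite by
compactness, as in the proof of `exists_embedding_euclidean_of_compact` in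
`Mathlib/Geometry/Manifold/WhitneyEmbedding.lean`; copy the short proofs from there). Let
`e0 x i = (f i x • extChartAt (𝓡∂ n) (f.c i) x, f i x)`, `e = toEuclidean ∘ e0`, and
`b v = ∑ i, ((toEuclidean.symm v) i).1 0`. At `x` take `i = f.ind x`, `ψ = e ∘ (extChartAt _ (f.c i)).symm`,
`π v = (toEuclidean.symm v i).1`, `u = extChartAt _ (f.c i) x`, and `r` so small that `HB u r` lies
in the target of the chart and `f i = 1` on its preimage. All terms of `b (e y)` are nonnegative.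
For `O`: `e` is a closed embedding and the preimage of `ball u r` in the chart domain is open. -/
theorem exists_nice : ∃ (N : ℕ) (e : W → E N) (b : E N →L[ℝ] ℝ), Continuous e ∧
    Function.Injective e ∧ Nice n (range e) b ∧ ∀ x, b (e x) = 0 ↔ x ∈ (𝓡∂ n).boundary W := by
  obtain ⟨ι, f, -⟩ := SmoothBumpCovering.exists_isSubordinate (𝓡∂ n) (M := W) isClosed_univ
    (U := fun _ => univ) fun _ _ => Filter.univ_mem
  let _ : Fintype ι := f.fintype
  let T := toEuclidean (E := ι → E n × ℝ)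
  let e0 : W → ι → E n × ℝ := fun x i => (f i x • extChartAt (𝓡∂ n) (f.c i) x, f i x)
  have he0 : ContMDiff (𝓡∂ n) 𝓘(ℝ, ι → E n × ℝ) ∞ e0 :=
    contMDiff_pi_space.2 fun i =>
      ((f i).contMDiff_smul contMDiffOn_extChartAt).prodMk_space (f i).contMDiff
  have hi0 : Function.Injective e0 := by
    intro x y h
    obtain ⟨h₁, h₂⟩ := Prod.mk_inj.1 (congrFun h (f.ind x (mem_univ x)))
    rw [f.apply_ind x (mem_univ x)] at h₂
    rw [← h₂, f.apply_ind x (mem_univ x), one_smul, one_smul] at h₁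
    have := f.mem_extChartAt_source_of_eq_one h₂.symm
    exact (extChartAt (𝓡∂ n) (f.c _)).injOn (f.mem_extChartAt_ind_source x (mem_univ x)) this h₁
  let p : ι → (E (Module.finrank ℝ (ι → E n × ℝ)) →L[ℝ] E n) := fun i =>
    ((ContinuousLinearMap.fst ℝ (E n) ℝ).comp
      (ContinuousLinearMap.proj (R := ℝ) (φ := fun _ : ι => E n × ℝ) i)).comp
      (T.symm : E (Module.finrank ℝ (ι → E n × ℝ)) →L[ℝ] (ι → E n × ℝ))
  have hp : ∀ i x, p i (T (e0 x)) = f i x • extChartAt (𝓡∂ n) (f.c i) x := by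
    intro i x
    show ((T.symm (T (e0 x))) i).1 = _
    rw [T.symm_apply_apply]
  let b : E (Module.finrank ℝ (ι → E n × ℝ)) →L[ℝ] ℝ :=
    ∑ i, (EuclideanSpace.proj (𝕜 := ℝ) (0 : Fin n)).comp (p i)
  have hb : ∀ x, b (T (e0 x)) = ∑ i, f i x * extChartAt (𝓡∂ n) (f.c i) x 0 := by
    intro x
    simp only [b, sum_apply, ContinuousLinearMap.comp_apply, hp]
    rfl
  have hnn : ∀ x i, 0 ≤ f i x * extChartAt (𝓡∂ n) (f.c i) x 0 := fun x i =>
    mul_nonneg (f i).nonneg (emb_nonneg _ _)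
  have hbd : ∀ x, b (T (e0 x)) = 0 ↔ x ∈ (𝓡∂ n).boundary W := by
    intro x
    rw [hb, Finset.sum_eq_zero_iff_of_nonneg fun i _ => hnn x i]
    constructor
    · intro h
      have h1 := h (f.ind x (mem_univ x)) (Finset.mem_univ _)
      rw [f.apply_ind x (mem_univ x), one_mul] at h1
      exact (bd_iff _ (f.mem_chartAt_ind_source x (mem_univ x))).2 h1
    · intro h i _
      by_cases h1 : f i x = 0
      · rw [h1, zero_mul]
      · rw [(bd_iff _ ((f i).support_subset_source h1)).1 h, mul_zero]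
  have hsm : ContMDiff (𝓡∂ n) 𝓘(ℝ, E (Module.finrank ℝ (ι → E n × ℝ))) ∞ (T ∘ e0) :=
    T.contDiff.contMDiff.comp he0
  have hc : Continuous (T ∘ e0) := hsm.continuous
  have hinj : Function.Injective (T ∘ e0) := T.injective.comp hi0
  refine ⟨_, T ∘ e0, b, hc, hinj, ⟨isCompact_range hc, ?_⟩, hbd⟩
  rintro _ ⟨x, rfl⟩
  obtain ⟨i, hi⟩ : ∃ i, i = f.ind x (mem_univ x) := ⟨_, rfl⟩
  have hx : x ∈ (extChartAt (𝓡∂ n) (f.c i)).source := by
    rw [hi]
    exact f.mem_extChartAt_ind_source x (mem_univ x)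
  have h1 : {y | f i y = 1} ∈ 𝓝 x := by
    rw [hi]
    exact f.eventuallyEq_one x (mem_univ x)
  have h2 : (extChartAt (𝓡∂ n) (f.c i)).target ∩
      (extChartAt (𝓡∂ n) (f.c i)).symm ⁻¹' {y | f i y = 1} ∈
      𝓝[range (𝓡∂ n)] (extChartAt (𝓡∂ n) (f.c i) x) :=
    Filter.inter_mem (extChartAt_target_mem_nhdsWithin' hx)
      (mem_nhdsWithin_of_mem_nhds (extChartAt_preimage_mem_nhds' hx h1))
  obtain ⟨r, hr, hsub⟩ := Metric.mem_nhdsWithin_iff.1 h2
  rw [range_modelWithCornersEuclideanHalfSpace] at hsub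
  have hA : IsOpen ((extChartAt (𝓡∂ n) (f.c i)).source ∩
      extChartAt (𝓡∂ n) (f.c i) ⁻¹' ball (extChartAt (𝓡∂ n) (f.c i) x) r) :=
    isOpen_extChartAt_preimage' _ isOpen_ball
  obtain ⟨O, hO, hOA⟩ := (hc.isClosedEmbedding hinj).isInducing.isOpen_iff.1 hA
  have hone : ∀ y ∈ HB (extChartAt (𝓡∂ n) (f.c i) x) r,
      f i ((extChartAt (𝓡∂ n) (f.c i)).symm y) = 1 := fun y hy => (hsub hy).2
  have hri : ∀ y ∈ HB (extChartAt (𝓡∂ n) (f.c i) x) r,
      extChartAt (𝓡∂ n) (f.c i) ((extChartAt (𝓡∂ n) (f.c i)).symm y) = y := fun y hy =>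
    (extChartAt (𝓡∂ n) (f.c i)).right_inv (hsub hy).1
  refine ⟨(T ∘ e0) ∘ (extChartAt (𝓡∂ n) (f.c i)).symm, p i, extChartAt (𝓡∂ n) (f.c i) x, r, O,
    hr, emb_nonneg _ _, ?_, ?_, fun y _ => mem_range_self _, hO, ?_, ?_, ?_, ?_, ?_⟩
  · have h3 := hsm.comp_contMDiffOn (contMDiffOn_extChartAt_symm (n := ∞) (I := 𝓡∂ n) (f.c i))
    rw [contMDiffOn_iff_contDiffOn] at h3
    exact (h3.of_le (WithTop.coe_le_coe.2 (le_top : (2 : ℕ∞) ≤ ⊤))).mono fun y hy => (hsub hy).1
  · show (T ∘ e0) ((extChartAt (𝓡∂ n) (f.c i)).symm (extChartAt (𝓡∂ n) (f.c i) x)) = _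
    rw [(extChartAt (𝓡∂ n) (f.c i)).left_inv hx]
  · have h3 : x ∈ (T ∘ e0) ⁻¹' O := by
      rw [hOA]
      exact ⟨hx, mem_ball_self hr⟩
    exact h3
  · rintro _ ⟨⟨y, rfl⟩, hy⟩
    have h3 : y ∈ (T ∘ e0) ⁻¹' O := hy
    rw [hOA] at h3
    refine ⟨extChartAt (𝓡∂ n) (f.c i) y, ⟨h3.2, emb_nonneg _ _⟩, ?_⟩
    show (T ∘ e0) ((extChartAt (𝓡∂ n) (f.c i)).symm (extChartAt (𝓡∂ n) (f.c i) y)) = _
    rw [(extChartAt (𝓡∂ n) (f.c i)).left_inv h3.1]
  · intro y hy
    show p i (T (e0 ((extChartAt (𝓡∂ n) (f.c i)).symm y))) = y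
    rw [hp, hone y hy, hri y hy, one_smul]
  · intro y hy
    show y 0 ≤ b (T (e0 ((extChartAt (𝓡∂ n) (f.c i)).symm y)))
    rw [hb]
    have h3 := Finset.single_le_sum
      (fun j _ => hnn ((extChartAt (𝓡∂ n) (f.c i)).symm y) j) (Finset.mem_univ i)
    rw [hone y hy, hri y hy, one_mul] at h3
    exact h3
  · intro y hy h0
    show b (T (e0 ((extChartAt (𝓡∂ n) (f.c i)).symm y))) = 0
    rw [hbd]
    have h3 := (extChartAt (𝓡∂ n) (f.c i)).map_target (hsub hy).1
    rw [extChartAt_source] at h3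
    rw [bd_iff _ h3, hri y hy]
    exact h0

end Pool.Agent.Lib.MP_5ceaf9_gt.Tri
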