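import Pool.Agent.Lib.MP_5ceaf9_gt.Tri.Top
import Pool.Agent.Lib.MP_5ceaf9_gt.Tri.Emb

/-! Every smooth h-cobordism has a triangulation in which the first end is a subcomplex. -/

noncomputable section

namespace Pool.Agent.Lib.MP_5ceaf9_gt.Tri

open Classical Set Metric Topology
open scoped Manifold ContDiff

/-- `exists_nice`, `Nice.tri`, `Sat.part` for the images of the two ends, `sat_sub`; a continuous
bijection from a compact space to a Hausdorff space is a homeomorphism. -/
theorem hcob_tri {A B : Closed4} (h : HCob A B) :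
    ∃ (K L : SC) (t : L.space ≃ₜ h.W), K.faces ⊆ L.faces ∧
      ∀ x, t x ∈ Set.range h.i ↔ (x : ℕ → ℝ) ∈ K.space := by
  obtain ⟨N, e, b, h1, h2, h3, h4⟩ := exists_nice (n := 5) (W := h.W)
  obtain ⟨L, t, h5, h6⟩ := h3.tri
  have e1 : {x | x ∈ range e ∧ b x = 0} = e '' range h.i ∪ e '' range h.j := by
    rw [← image_union, h.bdry]
    ext x
    constructor
    · rintro ⟨⟨y, rfl⟩, hy⟩
      exact ⟨y, (h4 y).1 hy, rfl⟩
    · rintro ⟨y, hy, rfl⟩
      exact ⟨⟨y, rfl⟩, (h4 y).2 hy⟩
  rw [e1] at h6
  obtain ⟨K, h7, h8⟩ := sat_sub (Sat.part h5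
    ((isCompact_range h.i.continuous).image h1).isClosed
    ((isCompact_range h.j.continuous).image h1).isClosed
    (disjoint_image_of_injective h2 h.disj) h6)
  have he : IsEmbedding e := (h1.isClosedEmbedding h2).isEmbedding
  have : CompactSpace L.space := isCompact_iff_compactSpace.1 (isCompact_space L)
  have c1 : Continuous fun w : L.space => t w := h5.cont.domRestrict
  have e2 : IsEmbedding fun w : L.space => t w :=
    (c1.isClosedEmbedding fun w w' hw => Subtype.ext (h5.inj w.2 w'.2 hw)).isEmbedding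
  have hr : range (fun w : L.space => t w) = range e := by
    rw [← h5.img]
    ext y
    simp
  refine ⟨K, L, e2.toHomeomorph.trans ((Homeomorph.setCongr hr).trans he.toHomeomorph.symm), h7,
    fun x => ?_⟩
  have e3 : ∀ y : range e, e (he.toHomeomorph.symm y) = y := fun y =>
    congrArg Subtype.val (he.toHomeomorph.apply_symm_apply y)
  have e4 : e ((e2.toHomeomorph.trans ((Homeomorph.setCongr hr).trans he.toHomeomorph.symm)) x) =
      t x := e3 _
  rw [← h8 x x.2, ← e4, h2.mem_set_image]

end Pool.Agent.Lib.MP_5ceaf9_gt.Tri
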