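import Pool.Agent.Lib.MP_5ceaf9_gt.Tri.Bad

/-! General position. -/

set_option linter.unusedSectionVars false

noncomputable section

namespace Pool.Agent.Lib.MP_5ceaf9_gt.Tri

open Classical Set Metric Topology

variable {V : Type} [NormedAddCommGroup V] [InnerProductSpace ℝ V] [FiniteDimensional ℝ V]
  {n : ℕ} [NeZero n] {S : Set V} {b : V →L[ℝ] ℝ}

theorem gp_ind {C : Finset (Cell V)} {P : Finset V} {a : V → Af V} (hg : GP S C P a)
    (hf : Fresh C P a) {G : Cell V} (hG : G ∈ C) {x : V} (hx : x ∈ cl S G) {I : Finset V}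
    (hI : I ⊆ P) (he : ∀ i ∈ I, ∀ j ∈ I, ev (a i) x = ev (a j) x) {i0 : V} (h0 : i0 ∈ I) :
    Ind S x (act G x ∪ (I.erase i0).image (fun i => a i - a i0)) := by
  intro μ hμ
  rw [Finset.sum_union, Finset.sum_image] at hμ
  · have e : ∀ i ∈ I.erase i0, Function.update (fun i => μ (a i - a i0)) i0
        (-∑ j ∈ I.erase i0, μ (a j - a i0)) i = μ (a i - a i0) :=
      fun i hi => Function.update_of_ne (Finset.ne_of_mem_erase hi) _ _
    obtain ⟨h1, h2⟩ := hg G hG x hx I hI he μ (Function.update (fun i => μ (a i - a i0)) i0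
      (-∑ j ∈ I.erase i0, μ (a j - a i0)))
      (by rw [← Finset.add_sum_erase _ _ h0, Finset.sum_congr rfl e, Function.update_self,
        neg_add_cancel])
      (by
        rw [← Finset.add_sum_erase _ _ h0, Function.update_self,
          Finset.sum_congr rfl fun i hi => congrArg (· • (a i).1) (e i hi)]
        refine (congrArg (· ∈ Ann S x) ?_).mp hμ
        simp only [Prod.fst_sub, smul_sub, Finset.sum_sub_distrib, ← Finset.sum_smul]
        module)
    intro f hf
    rcases Finset.mem_union.1 hf with h3 | h3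
    · exact h1 f h3
    · obtain ⟨i, hi, rfl⟩ := Finset.mem_image.1 h3
      exact (e i hi).symm.trans (h2 i (Finset.mem_of_mem_erase hi))
  · intro i hi j hj e
    by_contra h
    exact (hf i (hI (Finset.mem_of_mem_erase hi)) j (hI (Finset.mem_of_mem_erase hj)) h).1
      (sub_left_injective e)
  · refine Finset.disjoint_left.2 fun f h1 h2 => ?_
    obtain ⟨i, hi, rfl⟩ := Finset.mem_image.1 h2
    have := (hf i (hI (Finset.mem_of_mem_erase hi)) i0 (hI h0) (Finset.ne_of_mem_erase hi)).2 G hG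
    exact (mem_act.1 h1).1.elim this.1 this.2

theorem gp_fin {ι : Type} {N : ENNReal} (s : Finset ι) {B : ι → Set (Af V)}
    (h : ∀ i ∈ s, dimH (B i) ≤ N) : dimH (⋃ i ∈ s, B i) ≤ N :=
  (dimH_bUnion s.countable_toSet B).trans_le (iSup₂_le h)

theorem gp_pick (h : Nice n S b) {C : Finset (Cell V)} (hC : ∀ G ∈ C, Reg S b G) {P : Finset V}
    {a : V → Af V} (hg : GP S C P a) (hf : Fresh C P a) (a0 : Af V) {δ : ℝ} (hδ : 0 < δ) :
    ∃ g, dist g a0 < δ ∧ ∀ i0 ∈ P, g ≠ a i0 ∧ ∀ G ∈ C,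
      (∀ f ∈ G.1 ∪ G.2, g ≠ a i0 + f ∧ g ≠ a i0 - f) ∧ ∀ x ∈ cl S G, ∀ I ⊆ P, i0 ∈ I →
        (∀ i ∈ I, ∀ j ∈ I, ev (a i) x = ev (a j) x) →
        g - a i0 ∉ Bad S (act G x ∪ (I.erase i0).image (fun i => a i - a i0)) {x} := by
  obtain ⟨g, h1, h2⟩ := (dense_good (B := ⋃ i0 ∈ P, {a i0} ∪ ⋃ G ∈ C,
    (⋃ f ∈ G.1 ∪ G.2, {a i0 + f, a i0 - f}) ∪ ⋃ T ∈ (G.1 ∪ G.2).powerset, ⋃ I ∈ P.powerset,
      {g | g - a i0 ∈ Bad S (T ∪ (I.erase i0).image (fun i => a i - a i0))
        {x | x ∈ cl S G ∧ act G x = T ∧ i0 ∈ I ∧ ∀ i ∈ I, ∀ j ∈ I, ev (a i) x = ev (a j) x}})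
    (gp_fin _ fun i0 _ => (dimH_union _ _).trans_le (max_le ((dimH_singleton _).trans_le zero_le)
      (gp_fin _ fun G hG => (dimH_union _ _).trans_le (max_le
        (gp_fin _ fun f _ => (toFinite _).dimH_zero.trans_le zero_le)
        (gp_fin _ fun T _ => gp_fin _ fun I hI => (dimH_shift _ _).trans_le (h.bad_dim
          (fun x hx => hx.1.1) (fun x hx f hf => (Finset.mem_union.1 hf).elim
            (fun h3 => (mem_act.1 (hx.2.1 ▸ h3)).2) fun h3 => by
              obtain ⟨i, hi, rfl⟩ := Finset.mem_image.1 h3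
              rw [ev_sub, hx.2.2.2 i (Finset.mem_of_mem_erase hi) i0 hx.2.2.1, sub_self])
          (fun x hx => hx.2.1 ▸ gp_ind hg hf hG hx.1 (Finset.mem_powerset.1 hI) hx.2.2.2 hx.2.2.1)
          fun x hx e => Finset.mem_union_left _
            (hx.2.1 ▸ mem_act.2 ⟨(hC G hG).hb, (ev_b b x).trans e⟩)))))))).exists_dist_lt a0 hδ
  simp only [mem_compl_iff, mem_iUnion, mem_union, mem_insert_iff, mem_singleton_iff, not_exists,
    not_or, mem_ofPred_eq] at h1
  refine ⟨g, dist_comm g a0 ▸ h2, fun i0 h0 => ⟨(h1 i0 h0).1, fun G hG =>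
    ⟨((h1 i0 h0).2 G hG).1, fun x hx I hI h3 h4 h5 => ((h1 i0 h0).2 G hG).2 (act G x)
      (Finset.mem_powerset.2 (Finset.filter_subset _ _)) I (Finset.mem_powerset.2 hI) ?_⟩⟩⟩
  obtain ⟨_, rfl, h6⟩ := h5
  exact ⟨_, ⟨hx, rfl, h3, h4⟩, h6⟩

theorem gp_step (h : Nice n S b) {C : Finset (Cell V)} (hC : ∀ G ∈ C, Reg S b G) {P : Finset V}
    {a : V → Af V} (hg : GP S C P a) (hf : Fresh C P a) {k : V} (hk : k ∉ P) (a0 : Af V) {δ : ℝ}
    (hδ : 0 < δ) : ∃ g, dist g a0 < δ ∧ GP S C (insert k P) (Function.update a k g) ∧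
      Fresh C (insert k P) (Function.update a k g) := by
  obtain ⟨g, h1, h2⟩ := gp_pick h hC hg hf a0 hδ
  have u : ∀ i ∈ P, Function.update a k g i = a i := fun i hi =>
    Function.update_of_ne (ne_of_mem_of_not_mem hi hk) _ _
  refine ⟨g, h1, fun G hG x hx I hI he μ l hl hs => ?_, fun i hi j hj hij => ?_⟩
  · have key : ∀ J ⊆ P, J ⊆ I → (∀ i ∈ J, ∀ j ∈ J, ev (a i) x = ev (a j) x) ∧
        ∑ i ∈ J, l i • (Function.update a k g i).1 = ∑ i ∈ J, l i • (a i).1 := fun J h3 h4 =>
      ⟨fun i hi j hj => by rw [← u i (h3 hi), ← u j (h3 hj), he i (h4 hi) j (h4 hj)],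
        Finset.sum_congr rfl fun i hi => by rw [u i (h3 hi)]⟩
    by_cases hkI : k ∈ I
    · have h3 : I.erase k ⊆ P := Finset.subset_insert_iff.1 hI
      obtain ⟨h4, h5⟩ := key _ h3 (Finset.erase_subset _ _)
      rw [← Finset.add_sum_erase _ _ hkI] at hl hs
      rw [h5, Function.update_self] at hs
      by_cases h6 : l k = 0
      · rw [h6, zero_add] at hl
        rw [h6, zero_smul, zero_add] at hs
        obtain ⟨h7, h8⟩ := hg G hG x hx _ h3 h4 μ l hl hs
        exact ⟨h7, fun i hi => if e : i = k then e ▸ h6 else h8 i (Finset.mem_erase.2 ⟨e, hi⟩)⟩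
      · obtain ⟨i0, h0⟩ : (I.erase k).Nonempty := Finset.nonempty_iff_ne_empty.2 fun e => h6 (by
          rwa [e, Finset.sum_empty, add_zero] at hl)
        refine (((h2 i0 (h3 h0)).2 G hG).2 x hx _ h3 h0 h4 ⟨x, rfl, ?_, ?_⟩).elim
        · have := he k hkI i0 (Finset.mem_of_mem_erase h0)
          rw [Function.update_self, u i0 (h3 h0)] at this
          rw [ev_sub, this, sub_self]
        · have e : l k • (g - a i0).1 = (∑ f ∈ act G x, μ f • f.1 + (l k • g.1 +
              ∑ i ∈ I.erase k, l i • (a i).1)) - (∑ f ∈ act G x, μ f • f.1 +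
              ∑ i ∈ I.erase k, l i • (a i - a i0).1) := by
            simp only [Prod.fst_sub, smul_sub, Finset.sum_sub_distrib, ← Finset.sum_smul,
              ← neg_eq_of_add_eq_zero_right hl, neg_smul]
            abel
          rw [← Submodule.smul_mem_iff _ h6, e]
          refine sub_mem (Submodule.mem_sup_right hs) (Submodule.mem_sup_left (add_mem
            (sum_mem fun f hf => Submodule.smul_mem _ _ (Submodule.subset_span
              ⟨f, Finset.mem_union_left _ hf, rfl⟩)) (sum_mem fun i hi => Submodule.smul_mem _ _ ?_)))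
          by_cases e : i = i0
          · rw [e, sub_self]
            exact zero_mem _
          · exact Submodule.subset_span ⟨_, Finset.mem_union_right _
              (Finset.mem_image_of_mem _ (Finset.mem_erase.2 ⟨e, hi⟩)), rfl⟩
    · have h3 : I ⊆ P := (Finset.subset_insert_iff_of_notMem hkI).1 hI
      obtain ⟨h4, h5⟩ := key _ h3 Finset.Subset.rfl
      exact hg G hG x hx I h3 h4 μ l hl (h5 ▸ hs)
  · replace hi := Finset.mem_insert.1 hi
    rcases hi with rfl | hi
    · have hj := (Finset.mem_insert.1 hj).resolve_left hij.symm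
      rw [Function.update_self, u j hj]
      have := fun G hG hf => (((h2 j hj).2 G hG).1 (g - a j) hf).1 (add_sub_cancel _ _).symm
      exact ⟨(h2 j hj).1, fun G hG => ⟨fun e => this G hG (Finset.mem_union_left _ e),
        fun e => this G hG (Finset.mem_union_right _ e)⟩⟩
    · rw [u i hi]
      rcases Finset.mem_insert.1 hj with rfl | hj
      · rw [Function.update_self]
        have := fun G hG hf => (((h2 i hi).2 G hG).1 (a i - g) hf).2 (sub_sub_cancel _ _).symm
        exact ⟨(h2 i hi).1.symm, fun G hG => ⟨fun e => this G hG (Finset.mem_union_left _ e),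
          fun e => this G hG (Finset.mem_union_right _ e)⟩⟩
      · rw [u j hj]
        exact hf i hi j hj hij

theorem exists_gp (h : Nice n S b) {C : Finset (Cell V)} (hC : ∀ G ∈ C, Reg S b G) (P : Finset V)
    (a0 : V → Af V) {δ : ℝ} (hδ : 0 < δ) :
    ∃ a : V → Af V, (∀ i ∈ P, dist (a i) (a0 i) < δ) ∧ GP S C P a ∧ Fresh C P a := by
  induction P using Finset.induction_on with
  | empty =>
    refine ⟨a0, fun _ hi => absurd hi (Finset.notMem_empty _), fun G hG x hx I hI _ μ l _ hs => ?_,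
      fun _ hi => absurd hi (Finset.notMem_empty _)⟩
    rw [Finset.subset_empty.1 hI, Finset.sum_empty, add_zero] at hs
    exact ⟨(hC G hG).ind x hx μ hs, fun _ hi => absurd (hI hi) (Finset.notMem_empty _)⟩
  | insert k P hk ih =>
    obtain ⟨a, h1, h2, h3⟩ := ih
    obtain ⟨g, h4, h5⟩ := gp_step h hC h2 h3 hk (a0 k) hδ
    refine ⟨_, fun i hi => ?_, h5⟩
    rcases Finset.mem_insert.1 hi with rfl | hi
    · rwa [Function.update_self]
    · rw [Function.update_of_ne (ne_of_mem_of_not_mem hi hk)]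
      exact h1 i hi

end Pool.Agent.Lib.MP_5ceaf9_gt.Tri
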