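import Pool.Agent.Lib.MP_5ceaf9_gt.Tri.Str

/-! Nets and their Voronoi functions. -/

set_option linter.unusedSectionVars false

noncomputable section

namespace Pool.Agent.Lib.MP_5ceaf9_gt.Tri

open Classical Set Metric Topology

variable {V : Type} [NormedAddCommGroup V] [InnerProductSpace ℝ V] [FiniteDimensional ℝ V]
  {n : ℕ} [NeZero n] {S : Set V} {b : V →L[ℝ] ℝ}

/-- In the chart `Nice.str_cell` at `x` take `y = t • y0`, where `y0` has the coordinate `1` at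
`ι f` for `f ∈ act F x ∩ F.2` and `0` elsewhere (`Reg.dj`, `Str.inj`); `Ψ y ∈ op S F` and
`Ψ y → x` as `t → 0` by `Str.lip`. -/
theorem Nice.op_dense (h : Nice n S b) {F : Cell V} (hF : Reg S b F) :
    cl S F ⊆ closure (op S F) := by
  intro x hx
  obtain ⟨ι, r, Ψ, L, Λ, c, O, s, hp⟩ := h.str_cell hF hx
  let y : E n := WithLp.toLp 2 fun k => if ∃ f ∈ act F x, f ∈ F.2 ∧ ι f = k then 1 else 0
  have hy : ∀ (t : ℝ) k, (t • y) k = if ∃ f ∈ act F x, f ∈ F.2 ∧ ι f = k then t else 0 :=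
    fun t k => by simp [y]
  have t0 : Filter.Tendsto (fun t : ℝ => t • y) (𝓝[>] 0) (𝓝 0) :=
    ((continuous_id.smul continuous_const).tendsto' 0 0 (zero_smul _ _)).mono_left nhdsWithin_le_nhds
  have hd : ∀ᶠ t : ℝ in 𝓝[>] 0, t • y ∈ Dom b (act F x) ι r := by
    filter_upwards [t0.eventually (ball_mem_nhds 0 s.pos), self_mem_nhdsWithin] with t h1 h2
    refine ⟨mem_ball_zero_iff.1 h1, fun _ => ?_⟩
    rw [hy]
    split_ifs
    exacts [le_of_lt h2, le_rfl]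
  have t1 := (s.cont 0 ⟨norm_zero.trans_lt s.pos, fun _ => le_rfl⟩).tendsto.comp
    (tendsto_nhdsWithin_iff.2 ⟨t0, hd⟩)
  rw [s.ctr] at t1
  refine mem_closure_of_tendsto t1 ?_
  filter_upwards [hd, self_mem_nhdsWithin] with t h1 h2
  refine ⟨s.mem h1, fun f hf => ?_, fun f hf => ?_⟩
  · have ha : f ∈ act F x := mem_act.2 ⟨.inl hf, hx.2.1 f hf⟩
    rw [Function.comp, s.val f ha _ h1, hy, if_neg]
    rintro ⟨g, g1, g2, g3⟩
    exact Finset.disjoint_left.1 hF.dj hf (s.inj g1 ha g3 ▸ g2)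
  · by_cases ha : f ∈ act F x
    · rw [Function.comp, s.val f ha _ h1, hy, if_pos ⟨f, ha, hf, rfl⟩]
      exact h2
    · exact hp _ h1 f hf ha

/-- A maximal separated subset (`Metric.maximalSeparatedSet`, or a separated finite set of largest
cardinality, which is bounded by the size of a finite cover by balls of radius `ε / 2`). -/
theorem ex_sep {K A : Set V} (hK : IsCompact K) (hA : A ⊆ K) {ε : ℝ} (hε : 0 < ε) :
    ∃ P : Finset V, (∀ p ∈ P, p ∈ A) ∧ (∀ p ∈ P, ∀ q ∈ P, p ≠ q → ε ≤ dist p q) ∧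
      ∀ x ∈ closure A, ∃ p ∈ P, dist x p ≤ ε := by
  obtain ⟨t, -, ht, hc⟩ := finite_cover_balls_of_compact hK (half_pos hε)
  have hc' : ∀ x ∈ A, ∃ y ∈ ht.toFinset, dist x y < ε / 2 := fun x hx => by simpa using hc (hA hx)
  choose! g g1 g2 using hc'
  let Q : Set (Finset V) := {P | (∀ p ∈ P, p ∈ A) ∧ ∀ p ∈ P, ∀ q ∈ P, p ≠ q → ε ≤ dist p q}
  have hb : ∀ P ∈ Q, P.card ≤ ht.toFinset.card := fun P hP =>
    Finset.card_le_card_of_injOn g (fun p hp => g1 p (hP.1 p hp)) fun p hp q hq e => by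
      by_contra hn
      have h1 := hP.2 p hp q hq hn
      have h2 := g2 p (hP.1 p hp)
      have h3 := g2 q (hP.1 q hq)
      have h4 := dist_triangle_right p q (g q)
      rw [e] at h2
      linarith
  obtain ⟨P, hP, hm⟩ := (InvImage.wf (fun P : Finset V => ht.toFinset.card - P.card)
    wellFounded_lt).has_min Q ⟨∅, by simp [Q]⟩
  refine ⟨P, hP.1, hP.2, fun x hx => ?_⟩
  have h1 : A ⊆ ⋃ p ∈ P, closedBall p ε := fun z hz => by
    by_contra hn
    have h2 : ∀ p ∈ P, ε < dist z p := by simpa using hn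
    have h3 : z ∉ P := fun h => by simpa [hε.not_gt] using h2 z h
    have h4 : insert z P ∈ Q := by
      refine ⟨by simpa [hz] using hP.1, fun p hp q hq hpq => ?_⟩
      rcases Finset.mem_insert.1 hp with rfl | hp' <;> rcases Finset.mem_insert.1 hq with rfl | hq'
      exacts [(hpq rfl).elim, (h2 q hq').le, dist_comm q p ▸ (h2 p hp').le, hP.2 p hp' q hq' hpq]
    have h5 := hb _ h4
    refine hm _ h4 (?_ : _ - _ < _ - _)
    rw [Finset.card_insert_of_notMem h3] at h5 ⊢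
    omega
  simpa using closure_minimal h1 (isClosed_biUnion_finset fun _ _ => isClosed_closedBall) hx

/-- `vor p x = ‖x - p‖ ^ 2 - ‖x‖ ^ 2` -/
def vor (p : V) : Af V := ((-2 : ℝ) • innerSL ℝ p, ‖p‖ ^ 2)

theorem ev_vor (p x : V) : ev (vor p) x = ‖x - p‖ ^ 2 - ‖x‖ ^ 2 := by
  rw [norm_sub_sq_real, real_inner_comm]
  simp [ev, vor]
  ring

/-- For `a = vor`: `ev (a j - a i) i = d ^ 2` and `‖(a j - a i).1‖ = 2 * d` with `d = dist i j ≥ ε`,
so the margin is at least `ε ^ 2 / 2`; if `2 * ε ≤ dist x i` and `dist x j ≤ ε` then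
`ev (a i) x - ev (a j) x ≥ 3 * ε ^ 2`. With `‖x‖ ≤ R` on `cl S F` a perturbation by `δ` changes
`ev (a i) x` by at most `δ * (R + 1)`. -/
theorem marg_of_near {F : Cell V} (hK : IsCompact S) {ε : ℝ} (hε : 0 < ε) {P : Finset V}
    (h1 : ∀ p ∈ P, p ∈ S) (h2 : ∀ p ∈ P, ∀ q ∈ P, p ≠ q → ε ≤ dist p q)
    (h3 : ∀ x ∈ cl S F, ∃ p ∈ P, dist x p ≤ ε) :
    ∃ δ > 0, ∀ a : V → Af V, (∀ i ∈ P, dist (a i) (vor i) < δ) → Marg S F ε P a := by
  obtain ⟨R, hR, hS⟩ := hK.isBounded.exists_pos_norm_le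
  refine ⟨min (ε ^ 2 / 8 / (R + 1)) (ε / 4), by positivity, fun a ha => ?_⟩
  simp only [dist_eq_norm] at ha
  have k1 : ∀ i ∈ P, ‖(a i).1 - (vor i).1‖ ≤ ε / 4 := fun i hi =>
    ((norm_fst_le (a i - vor i)).trans (ha i hi).le).trans (min_le_right _ _)
  have k2 : ∀ i ∈ P, ∀ x ∈ S, |ev (a i) x - (‖x - i‖ ^ 2 - ‖x‖ ^ 2)| ≤ ε ^ 2 / 8 := by
    intro i hi x hx
    have e1 : ‖a i - vor i‖ * (R + 1) ≤ ε ^ 2 / 8 := (le_div_iff₀ (by positivity)).1
      ((ha i hi).le.trans (min_le_left _ _))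
    have e2 : |(a i - vor i).1 x| ≤ ‖a i - vor i‖ * R := ((a i - vor i).1.le_opNorm x).trans
      (mul_le_mul (norm_fst_le _) (hS x hx) (norm_nonneg _) (norm_nonneg _))
    have e3 : |(a i - vor i).2| ≤ ‖a i - vor i‖ := norm_snd_le (a i - vor i)
    rw [← ev_vor, ← ev_sub]
    exact (abs_add_le _ _).trans (by linarith)
  refine ⟨fun i hi j hj hij => ?_, fun i hi x hx hm => ?_⟩
  · have e1 := abs_le.1 (k2 i hi i (h1 i hi))
    have e2 := abs_le.1 (k2 j hj i (h1 i hi))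
    have e3 := h2 i hi j hj hij
    have e4 : ‖(vor j).1 - (vor i).1‖ = 2 * ‖i - j‖ := by
      have e : (vor j).1 - (vor i).1 = innerSL ℝ ((2 : ℝ) • (i - j)) := by
        ext x
        simp [vor]
        ring
      rw [e, innerSL_apply_norm, norm_smul, Real.norm_two]
    have e5 : ‖(a j - a i).1‖ ≤ ε / 4 + 2 * ‖i - j‖ + ε / 4 := by
      have e : (a j - a i).1 = (a j).1 - (vor j).1 + ((vor j).1 - (vor i).1) -
          ((a i).1 - (vor i).1) := by
        rw [Prod.fst_sub]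
        abel
      rw [e, ← e4]
      exact (norm_sub_le _ _).trans (add_le_add ((norm_add_le _ _).trans
        (add_le_add (k1 j hj) le_rfl)) (k1 i hi))
    rw [dist_eq_norm] at e3
    rw [sub_self, norm_zero] at e1
    rw [ev_sub]
    nlinarith
  · obtain ⟨j, hj, e3⟩ := h3 x hx
    have e1 := abs_le.1 (k2 i hi x hx.1)
    have e2 := abs_le.1 (k2 j hj x hx.1)
    have e4 := hm j hj
    rw [dist_eq_norm] at e3 ⊢
    have e5 := pow_le_pow_left₀ (norm_nonneg _) e3 2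
    exact lt_of_pow_lt_pow_left₀ 2 (by positivity) (by nlinarith)

theorem Nice.exists_net (h : Nice n S b) {F : Cell V} (hF : Reg S b F) {ε : ℝ} (hε : 0 < ε) :
    ∃ (P : Finset V) (a0 : V → Af V) (δ : ℝ), 0 < δ ∧ (∀ p ∈ P, p ∈ op S F) ∧
      ((cl S F).Nonempty → P.Nonempty) ∧
      ∀ a : V → Af V, (∀ i ∈ P, dist (a i) (a0 i) < δ) → Marg S F ε P a := by
  obtain ⟨P, h1, h2, h3⟩ := ex_sep (isCompact_cl h.cpt F) (op_sub S F) hε
  have h4 : ∀ x ∈ cl S F, ∃ p ∈ P, dist x p ≤ ε := fun x hx => h3 x (h.op_dense hF hx)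
  obtain ⟨δ, hδ, h5⟩ := marg_of_near h.cpt hε (fun p hp => (h1 p hp).1) h2 h4
  exact ⟨P, vor, δ, hδ, h1, fun ⟨x, hx⟩ => (h4 x hx).imp fun _ h => h.1, h5⟩

end Pool.Agent.Lib.MP_5ceaf9_gt.Tri
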