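import Pool.Agent.Lib.MP_5ceaf9_gt.Tri.Str

/-! Small Voronoi cells are cones. -/

set_option linter.unusedSectionVars false

noncomputable section

namespace Pool.Agent.Lib.MP_5ceaf9_gt.Tri

open Classical Set Metric Topology

variable {V : Type} [NormedAddCommGroup V] [InnerProductSpace ℝ V] [FiniteDimensional ℝ V]
  {n : ℕ} [NeZero n] {S : Set V} {b : V →L[ℝ] ℝ}

section core

variable {F : Cell V} {x : V} {ι : Af V → Fin n} {r : ℝ} {Ψ : E n → V} {L : E n →L[ℝ] V}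
  {Λ : V →L[ℝ] E n} {c : ℝ} {O : Set V}

theorem star_est {T : Finset (Af V)} (hs : Str S b x T ι r Ψ L Λ c O) (g : Af V) {q v : E n}
    {s t : ℝ} (h : q + s • v ∈ Dom b T ι r) (h' : q + t • v ∈ Dom b T ι r) (hst : t ≤ s) :
    |ev g (Ψ (q + s • v)) - ev g (Ψ (q + t • v)) - (s - t) * g.1 (L v)| ≤
      (s - t) * (‖g.1‖ * (c * ‖v‖)) := by
  have h1 := g.1.le_of_opNorm_le_of_le le_rfl (hs.app _ h _ h')
  rw [add_sub_add_left_eq_sub, ← sub_smul, norm_smul, Real.norm_of_nonneg (sub_nonneg.2 hst),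
    map_sub, map_sub, map_smul, map_smul, Real.norm_eq_abs, smul_eq_mul] at h1
  rw [ev, ev, add_sub_add_right_eq_sub]
  exact h1.trans_eq (by ring)

theorem star_zero (hs : Str S b x (act F x) ι r Ψ L Λ c O) (hx : x ∈ cl S F) {q v : E n}
    (hq : q ∈ Dom b (act F x) ι r) (hv : q + v ∈ Dom b (act F x) ι r) {f : Af V} (hf : f ∈ F.1)
    (h0 : ev f (Ψ q) = 0) (h1 : ev f (Ψ (q + v)) = 0) (s : ℝ) : (q + s • v) (ι f) = 0 := by
  have ha := mem_act.2 ⟨Or.inl hf, hx.2.1 f hf⟩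
  rw [hs.val f ha _ hq] at h0
  rw [hs.val f ha _ hv, PiLp.add_apply, h0, zero_add] at h1
  simp [h0, h1]

/-- The estimate along a ray. Let `φ s = ev g (Ψ (q + s • v))` and `l = g.1 (L v)`; by `app`,
`|φ s - φ s' - l * (s - s')| ≤ ‖g.1‖ * c * |s - s'| * ‖v‖`. Suppose `φ s ≤ 0`. From
`φ 0 > ε / 4 * ‖g.1‖` and `c * ‖v‖ ≤ 2 * ε / 100` (`Str.anti`, `small`) we get
`s * (l + ‖g.1‖ * c * ‖v‖) < 0`, hence `φ 1 ≤ φ s + (1 - s) * (l + ‖g.1‖ * c * ‖v‖) < 0`. -/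
theorem ray_pos {T : Finset (Af V)} (hs : Str S b x T ι r Ψ L Λ c O) {ε : ℝ} {g : Af V}
    {q v : E n} (hq : q ∈ Dom b T ι r) (hv : q + v ∈ Dom b T ι r)
    (hm : ε / 4 * ‖g.1‖ < ev g (Ψ q)) (hd : dist (Ψ (q + v)) (Ψ q) < 2 * ε)
    (h1 : 0 ≤ ev g (Ψ (q + v))) {s : ℝ} (s0 : 0 ≤ s) (s1 : s < 1) : 0 < ev g (Ψ (q + s • v)) := by
  have hq' : q + (0 : ℝ) • v ∈ Dom b T ι r := by simpa using hq
  have hv' : q + (1 : ℝ) • v ∈ Dom b T ι r := by simpa using hv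
  have h := (convex_Dom b T ι r).add_smul_mem hq hv ⟨s0, s1.le⟩
  have e0 := (abs_le.1 (star_est hs g h hq' s0)).1
  have e1 := (abs_le.1 (star_est hs g hv' h s1.le)).2
  have h2 := hs.anti hv hq
  rw [add_sub_cancel_left, ← dist_eq_norm] at h2
  have h3 : c * ‖v‖ ≤ ε / 50 := by
    have := mul_le_mul_of_nonneg_left h2 hs.c0
    have := mul_le_mul_of_nonneg_right hs.small (dist_nonneg (x := Ψ (q + v)) (y := Ψ q))
    linarith
  have h4 := mul_le_mul_of_nonneg_left h3 (norm_nonneg g.1)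
  have h5 : 0 ≤ ‖g.1‖ * (c * ‖v‖) := mul_nonneg (norm_nonneg _) (mul_nonneg hs.c0 (norm_nonneg _))
  simp only [zero_smul, add_zero, one_smul, sub_zero] at e0 e1
  by_contra hn
  have h6 : s * (g.1 (L v) + ‖g.1‖ * (c * ‖v‖)) < 0 := by
    nlinarith [mul_le_of_le_one_left h5 s1.le]
  have h7 := mul_neg_of_pos_of_neg (sub_pos.2 s1) (neg_of_mul_neg_right h6 s0)
  linarith

/-- the half open segment from the centre to a point of the cell lies in the open cell: the active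
functions of `F` are coordinates (`val`), the others are positive (`hp`), and `ray_pos` -/
theorem seg_op (hs : Str S b x (act F x) ι r Ψ L Λ c O) (hx : x ∈ cl S F)
    (hp : ∀ y ∈ Dom b (act F x) ι r, ∀ f ∈ F.2, f ∉ act F x → 0 < ev f (Ψ y)) {ε : ℝ}
    {J : Finset (Af V)} {q v : E n} (hq : q ∈ Dom b (act F x) ι r)
    (hv : q + v ∈ Dom b (act F x) ι r) (hq' : Ψ q ∈ op S F)
    (hm : ∀ g ∈ J, ε / 4 * ‖g.1‖ < ev g (Ψ q)) (hd : dist (Ψ (q + v)) (Ψ q) < 2 * ε)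
    (h1 : Ψ (q + v) ∈ cl S (F.1, F.2 ∪ J)) {s : ℝ} (s0 : 0 ≤ s) (s1 : s < 1) :
    Ψ (q + s • v) ∈ op S (F.1, F.2 ∪ J) := by
  have h := (convex_Dom b (act F x) ι r).add_smul_mem hq hv ⟨s0, s1.le⟩
  refine ⟨hs.mem h, fun f hf => ?_, fun f hf => ?_⟩
  · rw [hs.val f (mem_act.2 ⟨Or.inl hf, hx.2.1 f hf⟩) _ h]
    exact star_zero hs hx hq hv hf (hq'.2.1 f hf) (h1.2.1 f hf) s
  have h2 := h1.2.2 f hf
  rcases Finset.mem_union.1 hf with hf | hf
  · by_cases ha : f ∈ act F x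
    · have h3 := hq'.2.2 f hf
      rw [hs.val f ha _ hq] at h3
      rw [hs.val f ha _ hv] at h2
      rw [hs.val f ha _ h]
      simp only [PiLp.add_apply, PiLp.smul_apply, smul_eq_mul] at h2 ⊢
      nlinarith [mul_nonneg s0 h2, mul_pos (sub_pos.2 s1) h3]
    · exact hp _ h f hf ha
  · exact ray_pos hs hq hv (hm f hf) hd h2 s0 s1

/-- Every ray leaves the cell through its boundary. The set of `s ≥ 1` with
`q + s • v ∈ (fun z => Λ (z - x)) '' cl` is compact and contains `1`; take its largest element. If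
the point were in the open cell one could go a little further: one stays in `Dom` (if
`(b, 0) ∈ F.1` its coordinate vanishes along the ray, otherwise it is positive at the point), the
coordinates of `F.1` vanish along the ray, and the strict inequalities persist (`Str.cont`). -/
theorem ray_exit (hK : IsCompact S) (hF : Reg S b F) (hs : Str S b x (act F x) ι r Ψ L Λ c O)
    (hx : x ∈ cl S F) {J : Finset (Af V)}
    (hc : cl S (F.1, F.2 ∪ J) ⊆ Ψ '' Dom b (act F x) ι r) {q v : E n}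
    (hq : q ∈ Dom b (act F x) ι r) (hv : q + v ∈ Dom b (act F x) ι r) (hq' : Ψ q ∈ cl S F)
    (h1 : Ψ (q + v) ∈ cl S (F.1, F.2 ∪ J)) (v0 : v ≠ 0) :
    ∃ s : ℝ, 1 ≤ s ∧ q + s • v ∈ Dom b (act F x) ι r ∧
      Ψ (q + s • v) ∈ cl S (F.1, F.2 ∪ J) \ op S (F.1, F.2 ∪ J) := by
  have hk : IsCompact ((fun z => Λ (z - x)) '' cl S (F.1, F.2 ∪ J)) :=
    (isCompact_cl hK _).image (by fun_prop)
  have he : IsClosedEmbedding fun s : ℝ => q + s • v :=
    (Homeomorph.addLeft q).isClosedEmbedding.comp (isClosedEmbedding_smul_left v0)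
  obtain ⟨s, ⟨⟨z, hz, e⟩, s1⟩, hm⟩ := ((he.isCompact_preimage hk).inter_right
    (isClosed_Ici (a := 1))).exists_isGreatest
    ⟨1, ⟨_, h1, by simpa using hs.inv _ hv⟩, self_mem_Ici⟩
  obtain ⟨y, hy, rfl⟩ := hc hz
  obtain rfl : y = q + s • v := (hs.inv y hy).symm.trans e
  refine ⟨s, s1, hy, hz, fun ho => ?_⟩
  have hz0 := fun f hf => star_zero hs hx hq hv hf (hq'.2.1 f hf) (h1.2.1 f hf)
  have hc := he.continuous.continuousAt (x := s)
  have h2 : ∀ᶠ t in 𝓝 s, q + t • v ∈ Dom b (act F x) ι r := by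
    refine (hc.norm.eventually (gt_mem_nhds hy.1)).and ?_
    by_cases hb : (b, 0) ∈ act F x
    · rcases (mem_act.1 hb).1 with h | h
      · exact Filter.Eventually.of_forall fun t _ => (hz0 _ h t).ge
      · have h3 := ho.2.2 _ (Finset.mem_union_left J h)
        rw [hs.val _ hb _ hy] at h3
        have h4 : ContinuousAt (fun t : ℝ => (q + t • v) (ι (b, 0))) s := by fun_prop
        filter_upwards [h4.eventually (lt_mem_nhds h3)] with t ht _ using ht.le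
    · exact Filter.Eventually.of_forall fun t h => absurd h hb
  have h3 := (hs.cont _ hy).tendsto.comp (tendsto_nhdsWithin_iff.2 ⟨hc, h2⟩)
  have h4 : ∀ᶠ t in 𝓝 s, ∀ f ∈ F.2 ∪ J, 0 < ev f (Ψ (q + t • v)) :=
    (Filter.eventually_all_finset _).2 fun f hf =>
      (((continuous_ev f).tendsto _).comp h3).eventually (lt_mem_nhds (ho.2.2 f hf))
  obtain ⟨t, ⟨h5, h6⟩, h7⟩ := (((h2.and h4).filter_mono nhdsWithin_le_nhds).and
    (self_mem_nhdsWithin (s := Ioi s))).exists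
  refine absurd (hm ⟨⟨_, ⟨hs.mem h5, fun f hf => ?_, fun f hf => (h6 f hf).le⟩, hs.inv _ h5⟩,
    le_trans s1 (le_of_lt h7)⟩) (not_le.2 h7)
  rw [hs.val f (mem_act.2 ⟨Or.inl hf, hx.2.1 f hf⟩) _ h5]
  exact hz0 f hf t

/-- `H z s = Ψ (q + s • (Λ (z - x) - q))` with `q = Λ (p - x)`, `M = (‖L‖ + c) * (‖Λ‖ * (2 * ε))`.
Injectivity: if `s ≤ s'` then `z'` lies on the segment from `p` to `z` with parameter `s / s'`, so
`s < s'` contradicts `seg_op`. -/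
theorem cone_core (hK : IsCompact S) (hF : Reg S b F) (hs : Str S b x (act F x) ι r Ψ L Λ c O)
    (hx : x ∈ cl S F)
    (hp : ∀ y ∈ Dom b (act F x) ι r, ∀ f ∈ F.2, f ∉ act F x → 0 < ev f (Ψ y)) {ε : ℝ}
    (hε : 0 < ε) {J : Finset (Af V)} {p : V} (hp' : p ∈ op S F)
    (hm : ∀ g ∈ J, ε / 4 * ‖g.1‖ < ev g p) (hd : ∀ z ∈ cl S (F.1, F.2 ∪ J), dist z p < 2 * ε)
    (hc : cl S (F.1, F.2 ∪ J) ⊆ Ψ '' Dom b (act F x) ι r) :
    ∃ H M, Cone (cl S (F.1, F.2 ∪ J)) (cl S (F.1, F.2 ∪ J) \ op S (F.1, F.2 ∪ J)) p H M := by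
  have hk : ∀ z ∈ cl S (F.1, F.2 ∪ J), Λ (z - x) ∈ Dom b (act F x) ι r ∧ Ψ (Λ (z - x)) = z :=
    fun z hz => by
      obtain ⟨y, hy, rfl⟩ := hc hz
      rw [hs.inv y hy]
      exact ⟨hy, rfl⟩
  have hpo : p ∈ op S (F.1, F.2 ∪ J) := ⟨hp'.1, hp'.2.1, fun f hf =>
    (Finset.mem_union.1 hf).elim (hp'.2.2 f) fun h => lt_of_le_of_lt (by positivity) (hm f h)⟩
  have hpC := op_sub _ _ hpo
  obtain ⟨hq, eq⟩ := hk p hpC
  set q := Λ (p - x) with hq0
  have hv : ∀ z ∈ cl S (F.1, F.2 ∪ J), q + (Λ (z - x) - q) ∈ Dom b (act F x) ι r := fun z hz => by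
    simpa using (hk z hz).1
  have hD : ∀ z ∈ cl S (F.1, F.2 ∪ J), ∀ s ∈ Ioc (0 : ℝ) 1,
      q + s • (Λ (z - x) - q) ∈ Dom b (act F x) ι r := fun z hz s h =>
    (convex_Dom _ _ _ _).add_smul_mem hq (hv z hz) (Ioc_subset_Icc_self h)
  have hone : ∀ z ∈ cl S (F.1, F.2 ∪ J), Ψ (q + (Λ (z - x) - q)) = z := fun z hz => by
    simpa using (hk z hz).2
  have hop : ∀ z ∈ cl S (F.1, F.2 ∪ J), ∀ s : ℝ, 0 ≤ s → s < 1 →
      Ψ (q + s • (Λ (z - x) - q)) ∈ op S (F.1, F.2 ∪ J) := fun z hz s s0 s1 =>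
    seg_op hs hx hp hq (hv z hz) (eq.symm ▸ hp') (eq.symm ▸ hm)
      (by rw [hone z hz, eq]; exact hd z hz) ((hone z hz).symm ▸ hz) s0 s1
  have hi : ∀ y ∈ Dom b (act F x) ι r, ∀ y' ∈ Dom b (act F x) ι r, Ψ y = Ψ y' → y = y' :=
    fun y hy y' hy' h => by rw [← hs.inv y hy, h, hs.inv y' hy']
  have hlt : ∀ z ∈ cl S (F.1, F.2 ∪ J), ∀ z' ∈ cl S (F.1, F.2 ∪ J) \ op S (F.1, F.2 ∪ J),
      ∀ s s' : ℝ, 0 < s → s • (Λ (z - x) - q) = s' • (Λ (z' - x) - q) → s' ≤ s :=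
    fun z hz z' hz' s s' s0 h => not_lt.1 fun h1 => hz'.2 (by
      have h2 := hop z hz (s'⁻¹ * s) (by have := s0.trans h1; positivity)
        ((inv_mul_lt_one₀ (s0.trans h1)).2 h1)
      rwa [mul_smul, h, inv_smul_smul₀ (s0.trans h1).ne', hone z' hz'.1] at h2)
  refine ⟨fun z s => Ψ (q + s • (Λ (z - x) - q)), (‖L‖ + c) * (‖Λ‖ * (2 * ε)),
    hs.cont.comp (f := fun u : V × ℝ => q + u.2 • (Λ (u.1 - x) - q)) (by fun_prop)
      fun u hu => hD _ hu.1.1 _ hu.2, fun z hz => by simpa using hone z hz.1, fun z hz s h => ?_,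
    fun z hz s h => ?_, fun z hz s h h' => h'.2 (hop z hz.1 s h.1.le h.2), hpC, fun h => h.2 hpo,
    fun z hz s h h' => ?_, fun z hz z' hz' s h s' h' e => ?_, fun y hy hn => ?_⟩
  · have h1 := hs.lip (hD z hz.1 s h) hq
    rw [eq, add_sub_cancel_left, norm_smul, Real.norm_of_nonneg h.1.le, hq0, ← map_sub,
      sub_sub_sub_cancel_right] at h1
    have h2 := Λ.le_of_opNorm_le_of_le le_rfl (dist_eq_norm z p ▸ (hd z hz.1).le)
    have h3 := mul_le_mul_of_nonneg_left (mul_le_mul_of_nonneg_left h2 h.1.le)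
      (add_nonneg (norm_nonneg L) hs.c0)
    rw [hq0, ← map_sub, sub_sub_sub_cancel_right]
    linarith
  · rcases h.2.lt_or_eq with h1 | rfl
    · exact op_sub _ _ (hop z hz.1 s h.1.le h1)
    · rw [one_smul, hone z hz.1]
      exact hz.1
  · have h1 := hi _ (hD z hz.1 s h) _ hq (h'.trans eq.symm)
    rw [add_eq_left, smul_eq_zero_iff_right h.1.ne'] at h1
    have h2 := hone z hz.1
    rw [h1, add_zero, eq] at h2
    exact hz.2 (h2 ▸ hpo)
  · have h1 := add_left_cancel (hi _ (hD z hz.1 s h) _ (hD z' hz'.1 s' h') e)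
    obtain rfl := le_antisymm (hlt z' hz'.1 z hz _ _ h'.1 h1.symm) (hlt z hz.1 z' hz' _ _ h.1 h1)
    exact ⟨by rw [← hone z hz.1, smul_right_injective _ h.1.ne' h1, hone z' hz'.1], rfl⟩
  · obtain ⟨t, t1, h1, h2⟩ := ray_exit hK hF hs hx hc hq (hv y hy) (eq.symm ▸ op_sub _ _ hp')
      ((hone y hy).symm ▸ hy) fun h => hn (by rw [← hone y hy, h, add_zero, eq])
    have t0 := one_pos.trans_le t1
    refine ⟨_, h2, t⁻¹, ⟨inv_pos.2 t0, inv_le_one_of_one_le₀ t1⟩, ?_⟩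
    rw [hs.inv _ h1, add_sub_cancel_left, inv_smul_smul₀ t0.ne', hone y hy]

end core

/-- `Nice.str_cell` at all points of `cl S F`, `lebesgue_number_lemma_of_metric` for the open sets
`O`, and `cone_core` -/
theorem Nice.cone_cell (h : Nice n S b) {F : Cell V} (hF : Reg S b F) :
    ∃ ε > 0, ∀ p ∈ op S F, ∀ J : Finset (Af V), (∀ g ∈ J, ε / 4 * ‖g.1‖ < ev g p) →
      (∀ z ∈ cl S (F.1, F.2 ∪ J), dist z p < 2 * ε) → Con S (F.1, F.2 ∪ J) := by
  choose ι r Ψ L Λ c O hs hp using fun x : cl S F => h.str_cell hF x.2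
  obtain ⟨δ, hδ, hl⟩ := lebesgue_number_lemma_of_metric (isCompact_cl h.cpt F)
    (fun x => (hs x).opn) fun x hx => mem_iUnion.2 ⟨⟨x, hx⟩, (hs _).xO⟩
  refine ⟨δ / 2, half_pos hδ, fun p hp' J hm hd => Or.inr ⟨p, ?_⟩⟩
  obtain ⟨x, hx⟩ := hl p (op_sub _ _ hp')
  exact cone_core h.cpt hF (hs x) x.2 (hp x) (half_pos hδ) hp' hm hd fun z hz =>
    (hs x).cov ⟨hz.1, hx (mem_ball.2 ((hd z hz).trans_eq (by ring)))⟩

end Pool.Agent.Lib.MP_5ceaf9_gt.Tri
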