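import Pool.Agent.Lib.MP_5ceaf9_gt.Tri.Ann

/-! Straightening charts. -/

set_option linter.unusedSectionVars false

noncomputable section

namespace Pool.Agent.Lib.MP_5ceaf9_gt.Tri

open Classical Set Metric Topology

variable {V : Type} [NormedAddCommGroup V] [InnerProductSpace ℝ V] [FiniteDimensional ℝ V]
  {n : ℕ} [NeZero n] {S : Set V} {b : V →L[ℝ] ℝ}

/-- A map that is Lipschitz close to an automorphism has a global inverse with a Lipschitz bound.
`ApproximatesLinearOn.surjective`, `ApproximatesLinearOn.injective` on `univ`; the bound follows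
from `‖u - u'‖ ≤ ‖A.symm‖ * ‖A (u - u')‖`. -/
theorem ex_inv (A : E n ≃L[ℝ] E n) (Φ : E n → E n) {c : ℝ} (hc : 0 ≤ c)
    (hs : ‖(A.symm : E n →L[ℝ] E n)‖ * c ≤ 1 / 2)
    (h : ∀ u u', ‖Φ u - Φ u' - A (u - u')‖ ≤ c * ‖u - u'‖) :
    ∃ θ : E n → E n, (∀ y, Φ (θ y) = y) ∧ (∀ u, θ (Φ u) = u) ∧
      ∀ y y', ‖θ y - θ y'‖ ≤ 2 * ‖(A.symm : E n →L[ℝ] E n)‖ * ‖y - y'‖ := by
  have key : ∀ p p', ‖p - p'‖ ≤ 2 * ‖(A.symm : E n →L[ℝ] E n)‖ * ‖Φ p - Φ p'‖ := by
    intro p p'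
    have hN : 0 ≤ ‖(A.symm : E n →L[ℝ] E n)‖ := norm_nonneg _
    have h1 : ‖p - p'‖ ≤ ‖(A.symm : E n →L[ℝ] E n)‖ * ‖A (p - p')‖ := by
      have := (A.symm : E n →L[ℝ] E n).le_opNorm (A (p - p'))
      simpa only [ContinuousLinearEquiv.coe_coe, ContinuousLinearEquiv.symm_apply_apply] using this
    have h2 : ‖A (p - p')‖ ≤ ‖Φ p - Φ p'‖ + c * ‖p - p'‖ := by
      have e : A (p - p') = (Φ p - Φ p') - (Φ p - Φ p' - A (p - p')) := by abel
      rw [e]
      exact (norm_sub_le _ _).trans (add_le_add le_rfl (h p p'))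
    have h3 := mul_le_mul_of_nonneg_left h2 hN
    have h4 := mul_le_mul_of_nonneg_right hs (norm_nonneg (p - p'))
    nlinarith
  have hap : ApproximatesLinearOn Φ (A : E n →L[ℝ] E n) univ ⟨c, hc⟩ := fun p _ p' _ => h p p'
  have hsur : Function.Surjective Φ := by
    refine hap.surjective ?_
    rcases subsingleton_or_nontrivial (E n) with hE | hE
    · exact Or.inl hE
    · right
      have hpos : 0 < ‖(A.symm : E n →L[ℝ] E n)‖ := A.symm.norm_pos
      change c < ‖(A.symm : E n →L[ℝ] E n)‖⁻¹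
      rw [inv_eq_one_div, lt_div_iff₀ hpos]
      linarith
  choose θ hθ using hsur
  refine ⟨θ, hθ, fun p => ?_, fun y y' => ?_⟩
  · have := key (θ (Φ p)) p
    rw [hθ, sub_self, norm_zero, mul_zero] at this
    exact sub_eq_zero.1 (norm_le_zero_iff.1 this)
  · have := key (θ y) (θ y')
    rwa [hθ, hθ] at this

/-- A global extension of the parametrisation that is Lipschitz close to its derivative. The
derivative is continuous within the half ball (`ContDiffOn.continuousOn_fderivWithin`), so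
`ψ - D` is Lipschitz with a small constant on a smaller half ball (mean value inequality
`Convex.norm_image_sub_le_of_norm_hasFDerivWithin_le'`); extend it with
`LipschitzOnWith.extend_finite_dimension` and add `D`. -/
theorem Par.ext {x : V} {ψ : E n → V} {π : V →L[ℝ] E n} {u : E n} {r : ℝ} {O : Set V}
    (h : Par S b x ψ π u r O) {c : ℝ} (hc : 0 < c) :
    ∃ (r' : ℝ) (φ : E n → V), 0 < r' ∧ r' ≤ r ∧ (∀ y ∈ HB u r', φ y = ψ y) ∧
      ∀ y y', ‖φ y - φ y' - fderivWithin ℝ ψ (HB u r) u (y - y')‖ ≤ c * ‖y - y'‖ := by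
  have hu : u ∈ HB u r := self_mem_HB h.pos h.u0
  have hcont : ContinuousOn (fderivWithin ℝ ψ (HB u r)) (HB u r) :=
    h.sm.continuousOn_fderivWithin (uniqueDiffOn_HB h.pos h.u0) (by norm_num)
  have hK : 0 < (lipschitzExtensionConstant V : ℝ) := by
    exact_mod_cast lipschitzExtensionConstant_pos V
  have hε : 0 < c / lipschitzExtensionConstant V := div_pos hc hK
  obtain ⟨δ, hδ, hd⟩ := Metric.continuousWithinAt_iff.1 (hcont u hu) _ hε
  have hsub : HB u (min δ r) ⊆ HB u r := fun y hy =>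
    ⟨ball_subset_ball (min_le_right _ _) hy.1, hy.2⟩
  have hap : ApproximatesLinearOn ψ (fderivWithin ℝ ψ (HB u r) u) (HB u (min δ r)) ⟨_, hε.le⟩ := by
    intro y hy y' hy'
    refine (convex_HB u (min δ r)).norm_image_sub_le_of_norm_hasFDerivWithin_le'
      (f' := fun z => fderivWithin ℝ ψ (HB u r) z) (fun z hz => (h.hasD (hsub hz)).mono hsub)
      (fun z hz => ?_) hy' hy
    have := hd (hsub hz) (lt_of_lt_of_le hz.1 (min_le_left _ _))
    rw [dist_eq_norm] at this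
    exact this.le
  obtain ⟨g, hg, he⟩ := hap.lipschitzOnWith.extend_finite_dimension
  refine ⟨min δ r, fun y => g y + fderivWithin ℝ ψ (HB u r) u y, lt_min hδ h.pos, min_le_right _ _,
    fun y hy => ?_, fun y y' => ?_⟩
  · change g y + _ = _
    rw [← he hy, Pi.sub_apply, sub_add_cancel]
  · have h1 := hg.dist_le_mul y y'
    rw [dist_eq_norm, dist_eq_norm, NNReal.coe_mul] at h1
    have e1 : g y + fderivWithin ℝ ψ (HB u r) u y - (g y' + fderivWithin ℝ ψ (HB u r) u y') -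
        fderivWithin ℝ ψ (HB u r) u (y - y') = g y - g y' := by
      rw [map_sub]
      abel
    rw [e1]
    refine h1.trans (le_of_eq ?_)
    change (lipschitzExtensionConstant V : ℝ) * (c / lipschitzExtensionConstant V) * _ = _
    rw [mul_div_cancel₀ _ hK.ne']

/-- the linear map with prescribed coordinates -/
theorem str_lam (T : Finset (Af V)) (ι : Af V → Fin n) (hι : InjOn ι T) (A : E n ≃L[ℝ] E n)
    (D : E n →L[ℝ] V) (π : V →L[ℝ] E n) (hD : ∀ v, π (D v) = v)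
    (hA : ∀ f ∈ T, ∀ v, A v (ι f) = f.1.comp D v) :
    ∃ Λ : V →L[ℝ] E n, (∀ f ∈ T, ∀ w, Λ w (ι f) = f.1 w) ∧ ∀ v, Λ (D v) = A v := by
  let M : V →L[ℝ] E n := (A : E n →L[ℝ] E n).comp π
  let Λ : V →L[ℝ] E n := M + ∑ f ∈ T, (f.1 - (EuclideanSpace.proj (ι f)).comp M).smulRight
    (EuclideanSpace.single (ι f) (1 : ℝ))
  have e : ∀ w, Λ w = A (π w) + ∑ f ∈ T, (f.1 w - A (π w) (ι f)) •
      EuclideanSpace.single (ι f) (1 : ℝ) := by
    intro w
    simp only [Λ, M, add_apply, sum_apply,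
      ContinuousLinearMap.smulRight_apply, sub_apply,
      ContinuousLinearMap.comp_apply, ContinuousLinearEquiv.coe_coe]
    rfl
  refine ⟨Λ, fun g hg w => ?_, fun v => ?_⟩
  · have e2 : (∑ f ∈ T, (f.1 w - A (π w) (ι f)) • EuclideanSpace.single (ι f) (1 : ℝ)) (ι g) =
        ∑ f ∈ T, ((f.1 w - A (π w) (ι f)) • EuclideanSpace.single (ι f) (1 : ℝ)) (ι g) :=
      map_sum (EuclideanSpace.proj (𝕜 := ℝ) (ι g)) _ _
    rw [e, PiLp.add_apply, e2, Finset.sum_eq_single_of_mem g hg]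
    · simp
    · intro f hf hne
      have : ι g ≠ ι f := fun h => hne (hι hf hg h.symm)
      simp [this]
  · rw [e, hD, Finset.sum_eq_zero, add_zero]
    intro f hf
    rw [hA f hf, ContinuousLinearMap.comp_apply, sub_self, zero_smul]

theorem str_const {N a l β : ℝ} (hN : 0 ≤ N) (ha : 0 ≤ a) (hl : 0 ≤ l) (hβ : 0 ≤ β) :
    ∃ c' : ℝ, 0 < c' ∧ N * (a * c') ≤ 1 / 2 ∧ a * ((1 + l * a) * (c' * (2 * N))) ≤ 1 / 100 ∧
      β * c' < 1 := by
  have p1 : 0 ≤ N * a := mul_nonneg hN ha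
  have p2 : 0 ≤ a * ((1 + l * a) * (2 * N)) := by positivity
  have hK : 0 < N * a + a * ((1 + l * a) * (2 * N)) + β + 1 := by positivity
  have key : ∀ t, t ≤ N * a + a * ((1 + l * a) * (2 * N)) + β + 1 →
      t * (1 / (100 * (N * a + a * ((1 + l * a) * (2 * N)) + β + 1))) ≤ 1 / 100 := by
    intro t ht
    rw [mul_one_div, div_le_div_iff₀ (by positivity) (by norm_num)]
    linarith
  refine ⟨1 / (100 * (N * a + a * ((1 + l * a) * (2 * N)) + β + 1)), by positivity, ?_, ?_, ?_⟩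
  · have := key (N * a) (by linarith)
    linarith [mul_assoc N a (1 / (100 * (N * a + a * ((1 + l * a) * (2 * N)) + β + 1)))]
  · refine le_trans (le_of_eq ?_) (key (a * ((1 + l * a) * (2 * N))) (by linarith))
    ring
  · have := key β (by linarith)
    linarith

theorem str_cont {φ : E n → V} {L : E n →L[ℝ] V} {c : ℝ}
    (h : ∀ y y', ‖φ y - φ y' - L (y - y')‖ ≤ c * ‖y - y'‖) : Continuous φ := by
  refine (LipschitzWith.of_dist_le' (K := ‖L‖ + c) fun y y' => ?_).continuous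
  have e : φ y - φ y' = L (y - y') + (φ y - φ y' - L (y - y')) := by abel
  rw [dist_eq_norm, dist_eq_norm, e, add_mul]
  exact (norm_add_le _ _).trans (add_le_add (L.le_opNorm _) (h y y'))

/-- below the boundary the extension has negative `b` -/
theorem str_half {D : E n →L[ℝ] V} {φ : E n → V} {u p : E n} {c r : ℝ} (hu : u 0 = 0)
    (hD : 1 ≤ b (D (EuclideanSpace.single 0 1))) (hc : ‖b‖ * c < 1)
    (h : ∀ y y', ‖φ y - φ y' - D (y - y')‖ ≤ c * ‖y - y'‖)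
    (hz : ∀ z ∈ ball u r, z 0 = 0 → b (φ z) = 0) (hp : p ∈ ball u (r / 2)) (hb : 0 ≤ b (φ p)) :
    0 ≤ p 0 := by
  by_contra hn
  have hn : p 0 < 0 := not_le.1 hn
  have n1 : ‖p 0 • EuclideanSpace.single (0 : Fin n) (1 : ℝ)‖ = -p 0 := by
    rw [norm_smul, PiLp.norm_single, norm_one, mul_one, Real.norm_eq_abs, abs_of_neg hn]
  have n2 : -p 0 ≤ ‖p - u‖ := by
    have := PiLp.norm_apply_le (p - u) 0
    rwa [PiLp.sub_apply, hu, sub_zero, Real.norm_eq_abs, abs_of_neg hn] at this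
  rw [mem_ball, dist_eq_norm] at hp
  have z0 := hz (p - p 0 • EuclideanSpace.single (0 : Fin n) (1 : ℝ)) (by
    rw [mem_ball, dist_eq_norm, sub_right_comm]
    refine (norm_sub_le _ _).trans_lt ?_
    rw [n1]
    linarith) (by simp)
  have h1 := h p (p - p 0 • EuclideanSpace.single (0 : Fin n) (1 : ℝ))
  rw [sub_sub_cancel, n1] at h1
  have h2 := (le_abs_self _).trans ((b.le_opNorm _).trans
    (mul_le_mul_of_nonneg_left h1 (norm_nonneg b)))
  rw [map_sub, map_sub, z0, map_smul, map_smul, smul_eq_mul] at h2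
  nlinarith

/-- Take `Par` at `x`, `D` its derivative at `u`, and `ι`, `A` from `ex_coords` for the forms
`f.1.comp D` (`Par.ann_iff`). Let `Λ` have the coordinate `f.1` at `ι f` for `f ∈ T` and the
coordinates of `A ∘ π` elsewhere, so `Λ ∘ D = A` (`Par.pi_D`). Take `φ` from `Par.ext` with a small
constant `c'`, `Φ y = Λ (φ y - x)`, `θ` from `ex_inv`, `Ψ = φ ∘ θ`, `L = D ∘ A.symm`. With
`g = φ - D` and `p = θ y`, `p' = θ y'` one has
`Ψ y - Ψ y' - L (y - y') = (g p - g p') - L (Λ (g p - g p'))`, of norm at most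
`(1 + ‖L‖ * ‖Λ‖) * c' * 2 * ‖A.symm‖ * ‖y - y'‖`. For small `r`, `θ` maps `Dom` into `HB u r'`:
if `0 < u 0` by continuity; if `u 0 = 0` then `(b, 0) ∈ T`, and for `p = θ y` with `p 0 < 0` let
`p'` be `p` with first coordinate `0`; then `p' ∈ HB u r'`, `b (φ p') = 0` and
`y (ι (b, 0)) = b (φ p) ≤ p 0 * b (D e) + ‖b‖ * c' * |p 0| < 0` by `Par.one_le` when
`‖b‖ * c' < 1`. For `cov` take `O ∩ {s | π s ∈ ball u r'} ∩ {s | ‖Λ (s - x)‖ < r}`. -/
theorem Nice.str (h : Nice n S b) {x : V} (hx : x ∈ S) {T : Finset (Af V)}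
    (h0 : ∀ f ∈ T, ev f x = 0) (hI : Ind S x T) (hb : b x = 0 → (b, 0) ∈ T) {U : Set V}
    (hU : U ∈ 𝓝 x) :
    ∃ (ι : Af V → Fin n) (r : ℝ) (Ψ : E n → V) (L : E n →L[ℝ] V) (Λ : V →L[ℝ] E n) (c : ℝ)
      (O : Set V), Str S b x T ι r Ψ L Λ c O ∧ MapsTo Ψ (Dom b T ι r) U := by
  obtain ⟨ψ, π, u, r0, O0, hp⟩ := h.par x hx
  have hu : u ∈ HB u r0 := self_mem_HB hp.pos hp.u0
  have hDπ := hp.pi_D hu
  have hDe := hp.one_le
  have hext := fun (c : ℝ) (hc : 0 < c) => hp.ext hc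
  have hann : ∀ ν : V →L[ℝ] ℝ, ν.comp (fderivWithin ℝ ψ (HB u r0) u) = 0 → ν ∈ Ann S x := by
    intro ν hν
    have := (hp.ann_iff hu (by rw [hp.ctr]; exact hp.xO)).2 hν
    rwa [hp.ctr] at this
  generalize fderivWithin ℝ ψ (HB u r0) u = D at hDπ hDe hext hann
  obtain ⟨ι, A, hι, hA⟩ := ex_coords T (fun f => f.1.comp D) (fun μ hμ => hI μ (hann _ (by
    rw [← hμ, ContinuousLinearMap.finsetSum_comp]
    exact Finset.sum_congr rfl fun f _ => ContinuousLinearMap.smul_comp _ _ _)))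
  obtain ⟨Λ, hΛ, hΛD⟩ := str_lam T ι hι A D π hDπ hA
  obtain ⟨c', hc', k1, k2, k3⟩ := str_const (N := ‖(A.symm : E n →L[ℝ] E n)‖) (a := ‖Λ‖)
    (l := ‖D.comp (A.symm : E n →L[ℝ] E n)‖) (β := ‖b‖) (norm_nonneg _) (norm_nonneg _)
    (norm_nonneg _) (norm_nonneg _)
  obtain ⟨r', φ, hr', hr0, hφ, happ⟩ := hext c' hc'
  have hsub : HB u r' ⊆ HB u r0 := fun y hy => ⟨ball_subset_ball hr0 hy.1, hy.2⟩
  have hφu : φ u = x := by rw [hφ u (self_mem_HB hr' hp.u0), hp.ctr]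
  obtain ⟨θ, t1, t2, t3⟩ := ex_inv A (fun y => Λ (φ y - x)) (c := ‖Λ‖ * c')
    (mul_nonneg (norm_nonneg _) hc'.le) k1 (fun p p' => by
      have e : Λ (φ p - x) - Λ (φ p' - x) - A (p - p') = Λ (φ p - φ p' - D (p - p')) := by
        rw [← hΛD, ← map_sub, ← map_sub, sub_sub_sub_cancel_right]
      rw [e, mul_assoc]
      exact (Λ.le_opNorm _).trans (mul_le_mul_of_nonneg_left (happ p p') (norm_nonneg _)))
  have hθ0 : θ 0 = u := by
    have := t2 u
    rwa [hφu, sub_self, map_zero] at this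
  have hval : ∀ f ∈ T, ∀ y, ev f (φ (θ y)) = y (ι f) := by
    intro f hf y
    have e1 : Λ (φ (θ y) - x) (ι f) = y (ι f) := by rw [t1 y]
    rw [hΛ f hf, map_sub] at e1
    have e2 := h0 f hf
    simp only [ev] at e2 ⊢
    linarith
  have happ' : ∀ y y', ‖φ (θ y) - φ (θ y') - D.comp (A.symm : E n →L[ℝ] E n) (y - y')‖ ≤
      (1 + ‖D.comp (A.symm : E n →L[ℝ] E n)‖ * ‖Λ‖) * (c' * (2 * ‖(A.symm : E n →L[ℝ] E n)‖)) *
        ‖y - y'‖ := by
    intro y y'
    have e1 : y - y' = Λ (φ (θ y) - φ (θ y') - D (θ y - θ y')) + A (θ y - θ y') := by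
      rw [← hΛD, ← map_add, sub_add_cancel, ← sub_sub_sub_cancel_right _ _ x, map_sub, t1, t1]
    have e2 : D.comp (A.symm : E n →L[ℝ] E n) (A (θ y - θ y')) = D (θ y - θ y') := by
      simp only [ContinuousLinearMap.comp_apply, ContinuousLinearEquiv.coe_coe,
        ContinuousLinearEquiv.symm_apply_apply]
    have e3 : φ (θ y) - φ (θ y') - D.comp (A.symm : E n →L[ℝ] E n) (y - y') =
        (φ (θ y) - φ (θ y') - D (θ y - θ y')) - D.comp (A.symm : E n →L[ℝ] E n)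
          (Λ (φ (θ y) - φ (θ y') - D (θ y - θ y'))) := by
      rw [e1, map_add, e2]
      abel
    have b1 : ‖φ (θ y) - φ (θ y') - D (θ y - θ y')‖ ≤
        c' * (2 * ‖(A.symm : E n →L[ℝ] E n)‖) * ‖y - y'‖ := by
      rw [mul_assoc]
      exact (happ _ _).trans (mul_le_mul_of_nonneg_left (t3 y y') hc'.le)
    rw [e3]
    generalize φ (θ y) - φ (θ y') - D (θ y - θ y') = g at b1 ⊢
    generalize D.comp (A.symm : E n →L[ℝ] E n) = L
    have b2 : ‖L (Λ g)‖ ≤ ‖L‖ * (‖Λ‖ * ‖g‖) :=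
      (L.le_opNorm _).trans (mul_le_mul_of_nonneg_left (Λ.le_opNorm _) (norm_nonneg _))
    calc ‖g - L (Λ g)‖ ≤ ‖g‖ + ‖L‖ * (‖Λ‖ * ‖g‖) := (norm_sub_le _ _).trans (add_le_add le_rfl b2)
      _ = (1 + ‖L‖ * ‖Λ‖) * ‖g‖ := by ring
      _ ≤ _ := by
        rw [mul_assoc]
        exact mul_le_mul_of_nonneg_left b1 (by positivity)
  have cθ : Continuous θ := str_cont (L := 0) (c := 2 * ‖(A.symm : E n →L[ℝ] E n)‖) fun y y' => by
    rw [zero_apply, sub_zero]
    exact t3 y y'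
  have cφ : Continuous φ := str_cont happ
  have ev1 : ∀ᶠ y in 𝓝 (0 : E n), θ y ∈ ball u (r' / 2) :=
    cθ.continuousAt.eventually_mem (by rw [hθ0]; exact ball_mem_nhds u (half_pos hr'))
  have ev2 : ∀ᶠ y in 𝓝 (0 : E n), φ (θ y) ∈ U :=
    (cφ.comp cθ).continuousAt.eventually_mem (by
      change U ∈ 𝓝 (φ (θ 0))
      rwa [hθ0, hφu])
  have ev3 : ∀ᶠ y in 𝓝 (0 : E n), 0 < u 0 → 0 < θ y 0 := by
    by_cases hu0 : 0 < u 0
    · have c0 : Continuous fun y => θ y 0 := by fun_prop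
      refine (c0.continuousAt.eventually_mem (s := Ioi 0) ?_).mono fun y hy _ => hy
      rw [hθ0]
      exact Ioi_mem_nhds hu0
    · exact Filter.Eventually.of_forall fun y hy => absurd hy hu0
  obtain ⟨r, hr, hball⟩ := Metric.eventually_nhds_iff.1 (ev1.and (ev2.and ev3))
  have hD : ∀ y ∈ Dom b T ι r, θ y ∈ HB u r' ∧ φ (θ y) ∈ U := by
    intro y hy
    obtain ⟨q1, q2, q3⟩ := hball (y := y) (by rw [dist_zero_right]; exact hy.1)
    refine ⟨⟨ball_subset_ball (half_le_self hr'.le) q1, ?_⟩, q2⟩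
    rcases hp.u0.lt_or_eq with hu0 | hu0
    · exact (q3 hu0).le
    · have hbT := hb (hp.b_zero.2 hu0.symm)
      have y0 := hy.2 hbT
      rw [← hval _ hbT y, ev_b] at y0
      refine str_half (D := D) (φ := φ) hu0.symm (hDe hu0.symm) k3 happ (fun z hz z0 => ?_) q1 y0
      rw [hφ z ⟨hz, z0.ge⟩]
      exact hp.bd z (hsub ⟨hz, z0.ge⟩) z0
  refine ⟨ι, r, fun y => φ (θ y), D.comp (A.symm : E n →L[ℝ] E n), Λ, _,
    O0 ∩ ({s | π s ∈ ball u r'} ∩ {s | ‖Λ (s - x)‖ < r}), ⟨hr, hι, ?_, fun y hy => ?_, ?_, ?_, ?_,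
      fun y _ => t1 y, fun f hf y _ => hval f hf y, by positivity, k2,
      fun y _ y' _ => happ' y y'⟩, fun y hy => (hD y hy).2⟩
  · rw [hθ0, hφu]
  · have := (hD y hy).1
    change φ (θ y) ∈ S
    rw [hφ _ this]
    exact hp.mem (hsub this)
  · exact hp.opn.inter ((isOpen_ball.preimage π.continuous).inter
      (isOpen_lt (by fun_prop) continuous_const))
  · refine ⟨hp.xO, ?_, ?_⟩
    · change π x ∈ ball u r'
      rw [← hp.ctr, hp.inv u hu]
      exact mem_ball_self hr'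
    · change ‖Λ (x - x)‖ < r
      rwa [sub_self, map_zero, norm_zero]
  · rintro s ⟨hs, s0, s1, s2⟩
    obtain ⟨p, hp1, rfl⟩ := hp.cov ⟨hs, s0⟩
    have s1' : π (ψ p) ∈ ball u r' := s1
    rw [hp.inv p hp1] at s1'
    have e := hφ p ⟨s1', hp1.2⟩
    have e' : θ (Λ (ψ p - x)) = p := by
      rw [← e]
      exact t2 p
    refine ⟨Λ (ψ p - x), ⟨s2, fun hbT => ?_⟩, ?_⟩
    · rw [← hval _ hbT, e', e, ev_b]
      exact le_trans hp1.2 (hp.ge p hp1)
    · change φ (θ _) = _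
      rw [e', e]

section str

variable {x : V} {T : Finset (Af V)} {ι : Af V → Fin n} {r : ℝ} {Ψ : E n → V} {L : E n →L[ℝ] V}
  {Λ : V →L[ℝ] E n} {c : ℝ} {O : Set V}

theorem convex_Dom (b : V →L[ℝ] ℝ) (T : Finset (Af V)) (ι : Af V → Fin n) (r : ℝ) :
    Convex ℝ (Dom b T ι r) := by
  intro y hy y' hy' s t hs ht hst
  refine ⟨?_, fun hT => ?_⟩
  · have := convex_ball (0 : E n) r (mem_ball_zero_iff.2 hy.1) (mem_ball_zero_iff.2 hy'.1) hs ht hst
    exact mem_ball_zero_iff.1 this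
  · rw [PiLp.add_apply, PiLp.smul_apply, PiLp.smul_apply, smul_eq_mul, smul_eq_mul]
    exact add_nonneg (mul_nonneg hs (hy.2 hT)) (mul_nonneg ht (hy'.2 hT))

theorem Str.lip (h : Str S b x T ι r Ψ L Λ c O) {y y' : E n} (hy : y ∈ Dom b T ι r)
    (hy' : y' ∈ Dom b T ι r) : ‖Ψ y - Ψ y'‖ ≤ (‖L‖ + c) * ‖y - y'‖ := by
  have e : Ψ y - Ψ y' = L (y - y') + (Ψ y - Ψ y' - L (y - y')) := by abel
  rw [e, add_mul]
  exact (norm_add_le _ _).trans (add_le_add (L.le_opNorm _) (h.app y hy y' hy'))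

theorem Str.anti (h : Str S b x T ι r Ψ L Λ c O) {y y' : E n} (hy : y ∈ Dom b T ι r)
    (hy' : y' ∈ Dom b T ι r) : ‖y - y'‖ ≤ ‖Λ‖ * ‖Ψ y - Ψ y'‖ := by
  have e : y - y' = Λ (Ψ y - Ψ y') := by
    rw [← sub_sub_sub_cancel_right _ _ x, map_sub, h.inv y hy, h.inv y' hy']
  calc ‖y - y'‖ = ‖Λ (Ψ y - Ψ y')‖ := congrArg norm e
    _ ≤ _ := Λ.le_opNorm _

theorem Str.cont (h : Str S b x T ι r Ψ L Λ c O) : ContinuousOn Ψ (Dom b T ι r) := by
  have hl : LipschitzOnWith ⟨‖L‖ + c, add_nonneg (norm_nonneg _) h.c0⟩ Ψ (Dom b T ι r) :=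
    LipschitzOnWith.of_dist_le_mul fun y hy y' hy' => by
      rw [dist_eq_norm, dist_eq_norm]
      exact h.lip hy hy'
  exact hl.continuousOn

end str

/-- the chart of a regular cell at one of its points; the inactive functions stay positive -/
theorem Nice.str_cell (h : Nice n S b) {F : Cell V} (hF : Reg S b F) {x : V} (hx : x ∈ cl S F) :
    ∃ (ι : Af V → Fin n) (r : ℝ) (Ψ : E n → V) (L : E n →L[ℝ] V) (Λ : V →L[ℝ] E n) (c : ℝ)
      (O : Set V), Str S b x (act F x) ι r Ψ L Λ c O ∧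
        ∀ y ∈ Dom b (act F x) ι r, ∀ f ∈ F.2, f ∉ act F x → 0 < ev f (Ψ y) := by
  have hU : {s | ∀ f ∈ F.2, f ∉ act F x → 0 < ev f s} ∈ 𝓝 x := by
    refine (Filter.eventually_all_finset F.2).2 fun f hf => ?_
    by_cases ha : f ∈ act F x
    · exact Filter.Eventually.of_forall fun s hs => absurd ha hs
    · have h1 : 0 < ev f x :=
        (hx.2.2 f hf).lt_of_ne fun e => ha (mem_act.2 ⟨Or.inr hf, e.symm⟩)
      exact ((continuous_ev f).continuousAt.eventually_mem (Ioi_mem_nhds h1)).mono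
        fun s hs _ => hs
  obtain ⟨ι, r, Ψ, L, Λ, c, O, h1, h2⟩ := h.str hx.1 (T := act F x) (fun f hf => (mem_act.1 hf).2)
    (hF.ind x hx) (fun h0 => mem_act.2 ⟨hF.hb, by rwa [ev_b]⟩) hU
  exact ⟨ι, r, Ψ, L, Λ, c, O, h1, fun y hy => h2 hy⟩

end Pool.Agent.Lib.MP_5ceaf9_gt.Tri
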