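import Pool.Agent.Lib.MP_5ceaf9_gt.Tri.Net
import Pool.Agent.Lib.MP_5ceaf9_gt.Tri.Star
import Pool.Agent.Lib.MP_5ceaf9_gt.Tri.Cut
import Pool.Agent.Lib.MP_5ceaf9_gt.Tri.Cone

/-! The induction on the codimension. -/

set_option linter.unusedSectionVars false

noncomputable section

namespace Pool.Agent.Lib.MP_5ceaf9_gt.Tri

open Classical Set Metric Topology

variable {V : Type} [NormedAddCommGroup V] [InnerProductSpace ℝ V] [FiniteDimensional ℝ V]
  {n : ℕ} [NeZero n] {S : Set V} {b : V →L[ℝ] ℝ}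

variable {X : Finset (Cell V)}

theorem TriX.of_refines {X' : Finset (Cell V)} (hr : Refines S X' X) (h : TriX S X') :
    TriX S X := by
  obtain ⟨L, t, h1, h2⟩ := h
  have e : (⋃ c ∈ X', cl S c) = ⋃ c ∈ X, cl S c := by
    refine Subset.antisymm (iUnion₂_subset fun c' hc' x hx => ?_)
      (iUnion₂_subset fun c hc x hx => ?_)
    · obtain ⟨c, hc, h3⟩ := hr.2 c' hc'
      exact mem_iUnion₂.2 ⟨c, hc, h3 hx⟩
    · obtain ⟨c', hc', h3, -⟩ := hr.1 c hc x hx
      exact mem_iUnion₂.2 ⟨c', hc', h3⟩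
  refine ⟨L, t, e ▸ h1, fun c hc w hw w' hw' h3 h4 => ?_⟩
  obtain ⟨c', hc', h5, h6⟩ := hr.1 c hc _ h4
  exact h6 (h2 c' hc' w hw w' hw' h3 h5)

theorem Cpx.filter (hX : Cpx S b X) (k : ℕ) : Cpx S b (X.filter (fun c => k < c.1.card)) := by
  refine ⟨fun c hc => hX.reg c (Finset.mem_filter.1 hc).1, fun c hc c' hc' =>
    hX.dis c (Finset.mem_filter.1 hc).1 c' (Finset.mem_filter.1 hc').1, fun c hc x h1 h2 => ?_⟩
  obtain ⟨h3, h4⟩ := Finset.mem_filter.1 hc
  obtain ⟨c', h5, h6, h7⟩ := hX.bd c h3 x h1 h2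
  exact ⟨c', Finset.mem_filter.2 ⟨h5, h4.trans h6⟩, h6, h7⟩

/-- a closed cell of no smaller codimension does not meet the open cell -/
theorem Cpx.apart (hX : Cpx S b X) {c c' : Cell V} (hc : c ∈ X) (hc' : c' ∈ X) (hn : c ≠ c')
    (hk : c.1.card ≤ c'.1.card) {x : V} (h1 : x ∈ op S c) (h2 : x ∈ cl S c') : False := by
  by_cases h3 : x ∈ op S c'
  · exact hn (hX.dis c hc c' hc' x h1 h3)
  · obtain ⟨c'', h4, h5, h6, -⟩ := hX.bd c' hc' x h2 h3
    have := hX.dis c hc c'' h4 x h1 h6
    subst this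
    omega

/-- Add the cells of codimension `k` one at a time (induction on a finite subset `A` of them, the
statement being `TriX S (A ∪ X.filter _)`), by `tr_cone`; the boundary of a cell is a union of
closed cells of greater codimension (`bd`, `Cpx.apart`). -/
theorem tri_top (hX : Cpx S b X) {k : ℕ} (hk : ∀ c ∈ X, k ≤ c.1.card)
    (hc : ∀ c ∈ X, c.1.card = k → Con S c) (h : TriX S (X.filter (fun c => k < c.1.card))) :
    TriX S X := by
  have key : ∀ A : Finset (Cell V), (∀ c ∈ A, c ∈ X ∧ c.1.card = k) →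
      TriX S (A ∪ X.filter (fun c => k < c.1.card)) := by
    intro A
    induction A using Finset.induction_on with
    | empty => intro _; rwa [Finset.empty_union]
    | insert c A hcA ih =>
      intro hA
      obtain ⟨L, t, h1, h2⟩ := ih fun c' hc' => hA c' (Finset.mem_insert_of_mem hc')
      obtain ⟨hcX, hck⟩ := hA c (Finset.mem_insert_self _ _)
      rw [Finset.insert_union]
      have hm : ∀ c' ∈ A ∪ X.filter (fun c => k < c.1.card), c' ∈ X ∧ c ≠ c' := by
        intro c' hc'
        rcases Finset.mem_union.1 hc' with h3 | h3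
        · exact ⟨(hA c' (Finset.mem_insert_of_mem h3)).1, fun e => hcA (e ▸ h3)⟩
        · obtain ⟨h4, h5⟩ := Finset.mem_filter.1 h3
          refine ⟨h4, fun e => ?_⟩
          subst e
          omega
      rcases hc c hcX hck with h3 | ⟨p, H, M, h3⟩
      · refine ⟨L, t, ?_, fun c' hc' => ?_⟩
        · rwa [Finset.set_biUnion_insert, h3, empty_union]
        · rcases Finset.mem_insert.1 hc' with rfl | h4
          · rw [h3]
            exact fun _ _ _ _ _ h => h.elim
          · exact h2 c' h4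
      · have hb : ∀ x ∈ cl S c \ op S c, ∃ c' ∈ A ∪ X.filter (fun c => k < c.1.card),
            x ∈ cl S c' ∧ cl S c' ⊆ cl S c := by
          intro x hx
          obtain ⟨c', h4, h5, h6, h7⟩ := hX.bd c hcX x hx.1 hx.2
          exact ⟨c', Finset.mem_union_right _ (Finset.mem_filter.2 ⟨h4, hck ▸ h5⟩),
            op_sub S c' h6, h7⟩
        have hd : ∀ c' ∈ A ∪ X.filter (fun c => k < c.1.card), ∀ x ∈ cl S c', x ∉ op S c :=
          fun c' hc' x hx h4 =>
            hX.apart hcX (hm c' hc').1 (hm c' hc').2 (hck ▸ hk c' (hm c' hc').1) h4 hx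
        obtain ⟨L', t', h4, h5, h6⟩ := tr_cone h1 h3 (by
          ext x
          constructor
          · rintro ⟨h4, h5⟩
            obtain ⟨c', h6, h7⟩ := mem_iUnion₂.1 h5
            exact ⟨h4, hd c' h6 x h7⟩
          · intro hx
            obtain ⟨c', h4, h5, -⟩ := hb x hx
            exact ⟨hx.1, mem_iUnion₂.2 ⟨c', h4, h5⟩⟩) (by
          intro w hw w' hw' h4 h5
          obtain ⟨c', h6, h7, h8⟩ := hb _ h5
          have h9 := h2 c' h6 w hw w' hw' h4 h7
          exact ⟨h8 h9, hd c' h6 _ h9⟩)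
        refine ⟨L', t', ?_, fun c' hc' => ?_⟩
        · rwa [Finset.set_biUnion_insert, union_comm]
        · rcases Finset.mem_insert.1 hc' with rfl | h7
          · exact h5
          · exact h6 _ (fun x hx => mem_iUnion₂.2 ⟨c', h7, hx⟩) (h2 c' h7)
  have e : X.filter (fun c => c.1.card = k) ∪ X.filter (fun c => k < c.1.card) = X := by
    ext c
    simp only [Finset.mem_union, Finset.mem_filter]
    refine ⟨fun h => h.elim And.left And.left, fun h1 => ?_⟩
    rcases (hk c h1).eq_or_lt with h2 | h2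
    · exact Or.inl ⟨h1, h2.symm⟩
    · exact Or.inr ⟨h1, h2⟩
  rw [← e]
  exact key _ fun c hc => Finset.mem_filter.1 hc

/-- one cut: `Nice.cone_cell`, `Nice.exists_net`, `exists_gp`, and the file on cuts -/
theorem one_cut (h : Nice n S b) (hX : Cpx S b X) {F : Cell V} (hF : F ∈ X)
    (hk : ∀ c ∈ X, F.1.card ≤ c.1.card) (hn : ¬ Con S F) :
    ∃ X', Cpx S b X' ∧ Refines S X' X ∧ ∀ c ∈ X', F.1.card ≤ c.1.card ∧
      (c.1.card = F.1.card → ¬ Con S c → c ∈ X ∧ c ≠ F) := by
  obtain ⟨ε, hε, h1⟩ := h.cone_cell (hX.reg F hF)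
  obtain ⟨P, a0, δ, hδ, h2, h3, h4⟩ := h.exists_net (hX.reg F hF) hε
  have hP : P.Nonempty := h3 (nonempty_iff_ne_empty.2 fun e => hn (Or.inl e))
  obtain ⟨a, h5, hg, hf⟩ := exists_gp h (C := low X F)
    (fun G hG => hX.reg G (Finset.mem_filter.1 hG).1) P a0 hδ
  have hm := h4 a h5
  refine ⟨cutX X F P a, cut_cpx hX hP hg hf, cut_refines hP, fun c hc => ?_⟩
  obtain ⟨h6, h7⟩ := cut_card hk hf c hc
  refine ⟨h6, fun h8 h9 => (h7 h8).resolve_right ?_⟩
  rintro ⟨i, hi, rfl⟩
  refine h9 (h1 i (h2 i hi) _ (fun g hg' => ?_) fun z hz => ?_)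
  · obtain ⟨j, hj, rfl⟩ := Finset.mem_image.1 hg'
    exact hm.mar i hi j (Finset.mem_of_mem_erase hj) (Finset.ne_of_mem_erase hj).symm
  · refine hm.loc i hi z ⟨hz.1, hz.2.1, fun f hf' => hz.2.2 f (Finset.mem_union_left _ hf')⟩
      fun j hj => ?_
    by_cases e : j = i
    · rw [e]
    · have := hz.2.2 (a j - a i) (Finset.mem_union_right _
        (Finset.mem_image_of_mem _ (Finset.mem_erase.2 ⟨e, hj⟩)))
      rw [ev_sub] at this
      linarith

/-- Downward induction on `k` from `n + 1`, where all cells are empty (`Nice.card_le`); inside,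
induction on the number of cells of codimension `k` that are not cones. -/
theorem tri_all (h : Nice n S b) (hX : Cpx S b X) : TriX S X := by
  have key : ∀ d k, k + d = n + 1 → ∀ X : Finset (Cell V), Cpx S b X →
      (∀ c ∈ X, k ≤ c.1.card) → TriX S X := by
    intro d
    induction d with
    | zero =>
      intro k hk X hX h1
      have he : ∀ c ∈ X, cl S c = ∅ := fun c hc => eq_empty_of_forall_notMem fun x hx => by
        have h2 := h.card_le hx.1 ((hX.reg c hc).ind x hx)
        have h3 : c.1.card ≤ (act c x).card :=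
          Finset.card_le_card fun f hf => mem_act.2 ⟨Or.inl hf, hx.2.1 f hf⟩
        have h4 := h1 c hc
        omega
      have hs : (⟨∅, by simp, by simp⟩ : SC).space = ∅ :=
        eq_empty_of_forall_notMem fun w hw => by
          obtain ⟨-, σ, h2, -⟩ := hw
          simp at h2
      refine ⟨⟨∅, by simp, by simp⟩, fun _ => 0, ⟨?_, ?_, ?_⟩, fun c hc => ?_⟩
      · rw [hs]
        exact continuousOn_empty _
      · rw [hs]
        exact injOn_empty _
      · rw [hs, image_empty]
        exact (iUnion_eq_empty.2 fun c => iUnion_eq_empty.2 (he c)).symm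
      · rw [he c hc]
        exact fun _ _ _ _ _ h => h.elim
    | succ d ih =>
      intro k hk
      have inner : ∀ m, ∀ X : Finset (Cell V), Cpx S b X → (∀ c ∈ X, k ≤ c.1.card) →
          (X.filter (fun c => c.1.card = k ∧ ¬ Con S c)).card = m → TriX S X := by
        intro m
        induction m using Nat.strong_induction_on with
        | _ m ihm =>
        intro X hX h1 hm
        by_cases h2 : ∀ c ∈ X, c.1.card = k → Con S c
        · exact tri_top hX h1 h2 (ih (k + 1) (by omega) _ (hX.filter k)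
            fun c hc => (Finset.mem_filter.1 hc).2)
        · push Not at h2
          obtain ⟨F, hF, h3, h4⟩ := h2
          obtain ⟨X', h5, h6, h7⟩ := one_cut h hX hF (fun c hc => h3 ▸ h1 c hc) h4
          refine TriX.of_refines h6 (ihm _ ?_ X' h5 (fun c hc => h3 ▸ (h7 c hc).1) rfl)
          rw [← hm]
          refine Finset.card_lt_card ⟨fun c hc => ?_, fun hs => ?_⟩
          · obtain ⟨h8, h9, h10⟩ := Finset.mem_filter.1 hc
            exact Finset.mem_filter.2 ⟨((h7 c h8).2 (h9.trans h3.symm) h10).1, h9, h10⟩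
          · obtain ⟨h8, -, -⟩ := Finset.mem_filter.1 (hs (Finset.mem_filter.2 ⟨hF, h3, h4⟩))
            exact ((h7 F h8).2 rfl h4).2 rfl
      exact fun X hX h1 => inner _ X hX h1 rfl
  exact key (n + 1) 0 (by omega) X hX fun _ _ => Nat.zero_le _

/-- the complex with the cells `(∅, {(b, 0)})` and `({(b, 0)}, ∅)` -/
theorem Nice.tri (h : Nice n S b) :
    ∃ (L : SC) (t : (ℕ → ℝ) → V), Tr L t S ∧ Sat L t {x | x ∈ S ∧ b x = 0} := by
  have e0 : cl S ((∅, {(b, 0)}) : Cell V) = S := by
    ext x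
    refine ⟨fun hx => hx.1, fun hx => ⟨hx, by simp, fun f hf => ?_⟩⟩
    rw [Finset.mem_singleton.1 hf, ev_b]
    exact h.b_nonneg hx
  have e1 : cl S (({(b, 0)}, ∅) : Cell V) = {x | x ∈ S ∧ b x = 0} := by
    ext x
    simp [cl]
  have e2 : op S (({(b, 0)}, ∅) : Cell V) = {x | x ∈ S ∧ b x = 0} := by
    ext x
    simp [op]
  have e3 : op S ((∅, {(b, 0)}) : Cell V) = {x | x ∈ S ∧ 0 < b x} := by
    ext x
    simp [op]
  have hi : ∀ c : Cell V, (∀ f, f ∈ c.1 ∨ f ∈ c.2 → f = (b, 0)) → ∀ x ∈ S, Ind S x (act c x) := by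
    intro c hc x hx
    rcases (act c x).eq_empty_or_nonempty with h1 | ⟨f, h1⟩
    · rw [h1]
      exact fun _ _ f hf => absurd hf (Finset.notMem_empty f)
    · have h2 := mem_act.1 h1
      obtain rfl := hc f h2.1
      have h3 : act c x = {(b, 0)} :=
        Finset.eq_singleton_iff_unique_mem.2 ⟨h1, fun g hg => hc g (mem_act.1 hg).1⟩
      rw [h3]
      exact h.b_ind hx (by simpa using h2.2)
  have hX : Cpx S b {((∅, {(b, 0)}) : Cell V), ({(b, 0)}, ∅)} := by
    refine ⟨fun c hc => ?_, fun c hc c' hc' x h1 h2 => ?_, fun c hc x h1 h2 => ?_⟩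
    · rcases Finset.mem_insert.1 hc with rfl | hc
      · exact ⟨Or.inr (Finset.mem_singleton_self _), Finset.disjoint_empty_left _,
          fun x hx => hi _ (by simp) x hx.1⟩
      · obtain rfl := Finset.mem_singleton.1 hc
        exact ⟨Or.inl (Finset.mem_singleton_self _), Finset.disjoint_empty_right _,
          fun x hx => hi _ (by simp) x hx.1⟩
    · simp only [Finset.mem_insert, Finset.mem_singleton] at hc hc'
      rcases hc with rfl | rfl <;> rcases hc' with rfl | rfl
      · rfl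
      · rw [e3] at h1
        rw [e2] at h2
        exact absurd h2.2 h1.2.ne'
      · rw [e3] at h2
        rw [e2] at h1
        exact absurd h1.2 h2.2.ne'
      · rfl
    · simp only [Finset.mem_insert, Finset.mem_singleton] at hc
      rcases hc with rfl | rfl
      · refine ⟨({(b, 0)}, ∅), by simp, by simp, ?_, ?_⟩
        · rw [e2]
          rw [e3] at h2
          exact ⟨h1.1, le_antisymm (not_lt.1 fun h3 => h2 ⟨h1.1, h3⟩) (h.b_nonneg h1.1)⟩
        · rw [e0]
          exact fun y hy => hy.1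
      · rw [e1] at h1
        rw [e2] at h2
        exact absurd h1 h2
  obtain ⟨L, t, h1, h2⟩ := tri_all h hX
  refine ⟨L, t, ?_, e1 ▸ h2 _ (by simp)⟩
  rwa [Finset.set_biUnion_insert, Finset.set_biUnion_singleton, e0,
    union_eq_self_of_subset_right fun y hy => hy.1] at h1

end Pool.Agent.Lib.MP_5ceaf9_gt.Tri
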